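import Pool.Agent.H153SS.NonIso
import Pool.Agent.Y598.CG.Main

/-!
# Graphs with simple eigenvalues need almost linear dimension
-/

set_option autoImplicit false
set_option linter.unusedSectionVars false

namespace Pool.Agent.H153SS

open Finset Lay Pool.Agent.Y598.IM Pool.Agent.W185.SRG Pool.Agent.Y598.VT Pool.Agent.Y598.CG
  SimpleGraph

/-! ### Patterns exist -/

/-- The pattern of a layer with a given label. -/
def pat {m : ℕ} (w : Fin m → Bool) : Option (Bool ⊕ Fin m × Fin 3) → Finset Z2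
  | none => ∅
  | some (Sum.inl false) => {0, (1, 0)}
  | some (Sum.inl true) => {0, (0, 1)}
  | some (Sum.inr (l, q)) => if w l then {0, pc q} else ∅

theorem exists_pat (U : Type) [Fintype U] (m j : ℕ) (hU : Fintype.card U ≤ 2 ^ m)
    (hj : 3 + 3 * m ≤ 2 ^ j) : Nonempty (Pat U j) := by
  classical
  obtain ⟨code⟩ : Nonempty (U ↪ (Fin m → Bool)) := by
    refine Function.Embedding.nonempty_of_card_le ?_
    rw [Fintype.card_fun, Fintype.card_bool, Fintype.card_fin]
    exact hU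
  obtain ⟨pos⟩ : Nonempty ((Bool ⊕ Fin m × Fin 3) ↪ {i : Lay j // i ≠ rt j}) := by
    refine Function.Embedding.nonempty_of_card_le ?_
    have h1 : Fintype.card {i : Lay j // i ≠ rt j} = 2 ^ j - 1 := by
      rw [Fintype.card_subtype_compl, Lay.card, Fintype.card_subtype_eq]
    rw [h1, Fintype.card_sum, Fintype.card_prod, Fintype.card_bool, Fintype.card_fin,
      Fintype.card_fin]
    omega
  let f : (Bool ⊕ Fin m × Fin 3) → Lay j := fun l => (pos l).1
  have hf : Function.Injective f := fun l l' h => pos.injective (Subtype.ext h)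
  have hp := hf.isPartialInv
  have hfr : ∀ l, f l ≠ rt j := fun l => (pos l).2
  have hlab : ∀ l, Function.partialInv f (f l) = some l := fun l => (hp l (f l)).2 rfl
  have hval : ∀ v l, (if f l = rt j then ({0} : Finset Z2) else
      pat (code v) (Function.partialInv f (f l))) = pat (code v) (some l) := by
    intro v l
    rw [if_neg (hfr l), hlab]
  refine ⟨{
    E := fun v i => if i = rt j then {0} else pat (code v) (Function.partialInv f i)
    root := fun v => if_pos rfl
    shape := ?_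
    fst := ⟨f (Sum.inl false), fun v => hval v _⟩
    snd := ⟨f (Sum.inl true), fun v => hval v _⟩
    sep := ?_ }⟩
  · intro v i hi
    rw [if_neg hi]
    rcases Function.partialInv f i with _ | (_ | _) | ⟨l, q⟩
    · exact Or.inl rfl
    · exact Or.inr ⟨(1, 0), by decide, rfl⟩
    · exact Or.inr ⟨(0, 1), by decide, rfl⟩
    · by_cases h : code v l
      · exact Or.inr ⟨pc q, pc_ne q, if_pos h⟩
      · exact Or.inl (if_neg h)
  · intro v w hvw q
    obtain ⟨l, hl⟩ : ∃ l, code v l ≠ code w l := by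
      by_contra hcon
      push Not at hcon
      exact hvw (code.injective (funext hcon))
    refine ⟨f (Sum.inr (l, q)), ?_⟩
    rw [hval, hval]
    show ((if code v l then {0, pc q} else ∅) = _ ∧ (if code w l then {0, pc q} else ∅) = _) ∨
      ((if code v l then {0, pc q} else ∅) = _ ∧ (if code w l then {0, pc q} else ∅) = _)
    cases h1 : code v l <;> cases h2 : code w l
    · exact absurd (h1.trans h2.symm) hl
    · right
      exact ⟨rfl, rfl⟩
    · left
      exact ⟨rfl, rfl⟩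
    · exact absurd (h1.trans h2.symm) hl

/-! ### The family -/

variable {r : ℕ} [NeZero r]

theorem sh_sub {x y : Cv (Lp r)} (h : x.1 = y.1) (M : Ed r → ZMod 2) :
    (sh M y).2 - (sh M x).2 = y.2 - x.2 := by
  unfold sh
  rw [h]
  refine Prod.ext ?_ ?_
  · show y.2.1 + M (ed y.1 1) - (x.2.1 + M (ed y.1 1)) = y.2.1 - x.2.1
    ring
  · show y.2.2 + M (ed y.1 2) - (x.2.2 + M (ed y.1 2)) = y.2.2 - x.2.2
    ring

theorem big_sh (hr : 3 ≤ r) {n j : ℕ} (hn : 2 ≤ n) {b b' : Lp r → ZMod 2} (T : Pat (Lp r) j)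
    {x y : Bv (Lp r) j} {M : Ed r → ZMod 2}
    (hM : Good n inc (b' - b) (lvV x.1 ∪ lvV y.1) M) :
    (big (prt hr) b T).Adj x y ↔ (big (prt hr) b' T).Adj (sh M x.1, x.2) (sh M y.1, y.2) := by
  rw [big_adj, big_adj]
  refine or_congr (and_congr_left fun _ => ?_) (or_congr ?_ ?_)
  · exact (shV M).injective.eq_iff.symm
  · constructor
    · rintro ⟨h1, h2, h3, h4⟩
      refine ⟨h1, h2, h3, ?_⟩
      show (sh M y.1).2 - (sh M x.1).2 ∈ T.E x.1.1 x.2.2
      rw [sh_sub h1]
      exact h4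
    · rintro ⟨h1, h2, h3, h4⟩
      have h1' : x.1.1 = y.1.1 := h1
      have h4' : (sh M y.1).2 - (sh M x.1).2 ∈ T.E x.1.1 x.2.2 := h4
      rw [sh_sub h1'] at h4'
      exact ⟨h1, h2, h3, h4'⟩
  · exact and_congr_right fun _ => and_congr_right fun _ => sh_adj hr hn hM

/-- The family of the graphs. -/
noncomputable def bFam (hr : 3 ≤ r) {n K j : ℕ} (hn : 2 ≤ n) (hE : LE n K (inc (r := r)))
    (bb : Bool → Lp r → ZMod 2) (T : Pat (Lp r) j)
    (hinj : Function.Injective fun b => (big (prt hr) (bb b) T).Adj) :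
    Fam (Ed r → ZMod 2) (Finset (Ed r)) (Bv (Lp r) j) Bool where
  N := NV
  D := DV n
  Sol b b' W := {M | Good n inc (bb b' - bb b) W M}
  size W := W.card
  K := K
  N_anti W W' h M hM w hw := hM w (h hw)
  N_sup W W' M hM w hw := by
    rcases Finset.mem_union.1 hw with h | h
    · exact hM.1 w h
    · exact hM.2 w h
  N_bot := by
    rw [eq_top_iff]
    intro M _ w hw
    exact absurd hw (Finset.notMem_empty w)
  Sol_anti b b' W W' h M hM := Good.mono h hM
  sol_D b W M := by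
    show Good n inc (bb b - bb b) W M ↔ Good n inc 0 W M
    rw [sub_self]
  neg_mem b b' W M hM := by
    have := Good.neg (show Good n inc (bb b' - bb b) W M from hM)
    rwa [neg_sub] at this
  add_mem b b' b'' W M M' hM hM' := by
    have := Good.add (show Good n inc (bb b' - bb b) W M from hM)
      (show Good n inc (bb b'' - bb b') W M' from hM')
    have h1 : bb b' - bb b + (bb b'' - bb b') = bb b'' - bb b := by abel
    rwa [h1] at this
  size_bot := Finset.card_empty
  size_mono W W' h := Finset.card_le_card h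
  size_sup W W' := Finset.card_union_le _ _
  bot_sol b b' := ⟨0, good_empty hE _ 0⟩
  extend b b' W W' hWW hW' M hM := by
    obtain ⟨M', hM', hag⟩ := Good.extend hE hW' hM
    refine ⟨M', hM', fun w hw => ?_⟩
    rw [Pi.sub_apply, hag w hw, sub_self]
  act M := (shV M).prodCongr (Equiv.refl _)
  act_zero u := Prod.ext (sh_zero u.1) rfl
  act_add M M' u := Prod.ext (sh_add M M' u.1) rfl
  lv u := lvV u.1
  lv_act M u := rfl
  fix M x hM := by
    refine Prod.ext ?_ rfl
    show (x.1.1, (x.1.2.1 + M (ed x.1.1 1), x.1.2.2 + M (ed x.1.1 2))) = x.1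
    rw [hM _ (Finset.mem_insert_self _ _),
      hM _ (Finset.mem_insert_of_mem (Finset.mem_singleton_self _)), add_zero, add_zero]
  faithful M x hM := by
    have h0 : sh M x.1 = x.1 := congrArg Prod.fst hM
    have h1 : x.1.2.1 + M (ed x.1.1 1) = x.1.2.1 := congrArg (fun q : Cv (Lp r) => q.2.1) h0
    have h2 : x.1.2.2 + M (ed x.1.1 2) = x.1.2.2 := congrArg (fun q : Cv (Lp r) => q.2.2) h0
    intro w hw
    have hw' : w ∈ ({ed x.1.1 1, ed x.1.1 2} : Finset (Ed r)) := hw
    rw [Finset.mem_insert, Finset.mem_singleton] at hw'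
    rcases hw' with rfl | rfl
    · exact add_eq_left.1 h1
    · exact add_eq_left.1 h2
  c := 2
  size_lv x := Finset.card_le_two
  G b := (big (prt hr) (bb b) T).Adj
  G_inj := hinj
  adj b b' x y M hM := big_sh hr hn T hM

/-- The main theorem. -/
theorem ss_main (k : ℕ) (hk : 1 ≤ k) :
    ∃ (V : Type) (_ : Fintype V) (G H : SimpleGraph V),
      Fintype.card V ≤ 131010048 * (k * (Nat.log 2 k + 1) ^ 2) ∧
      SimpleSpectrum G ∧ SimpleSpectrum H ∧ IsEmpty (G ≃g H) ∧
      ∀ j ≤ k, WLEquivalent j G H ∧ Indist 2 j G.Adj [] H.Adj [] := by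
  obtain ⟨g, hg⟩ : ∃ g, g = Nat.log 3 k := ⟨_, rfl⟩
  obtain ⟨r, hrodd, hr1, hr2⟩ : ∃ r, r % 2 = 1 ∧ g + 7 ≤ r ∧ r ≤ g + 8 := by
    rcases Nat.even_or_odd g with h | h
    · refine ⟨g + 7, ?_, le_rfl, by omega⟩
      obtain ⟨q, hq⟩ := h
      omega
    · refine ⟨g + 8, ?_, by omega, le_rfl⟩
      obtain ⟨q, hq⟩ := h
      omega
  have hr : 3 ≤ r := by omega
  have : NeZero r := ⟨by omega⟩
  have hk2 : k < 3 ^ (g + 1) := by
    rw [hg]
    exact Nat.lt_pow_succ_log_self (by norm_num) k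
  have hk3 : 3 ^ g ≤ k := by
    rw [hg]
    exact Nat.pow_log_le_self 3 (by omega)
  have hgl : g ≤ Nat.log 2 k := by
    rw [hg]
    exact Nat.log_anti_left (by norm_num) (by norm_num)
  have hcU : Fintype.card (Lp r) ≤ 2 ^ (3 * r + 1) := by
    rw [card_Lp]
    have h1 : r ≤ 2 ^ r := (Nat.lt_two_pow_self).le
    have h2 : 3 ^ r ≤ 4 ^ r := Nat.pow_le_pow_left (by norm_num) r
    calc 2 * (r * 3 ^ r) ≤ 2 * (2 ^ r * 4 ^ r) :=
        Nat.mul_le_mul_left _ (Nat.mul_le_mul h1 h2)
      _ = 2 ^ (3 * r + 1) := by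
        rw [show (4 : ℕ) = 2 ^ 2 by norm_num, ← pow_mul, ← pow_add, pow_succ]
        ring_nf
  obtain ⟨j, hj1, hj2⟩ : ∃ j, 3 + 3 * (3 * r + 1) ≤ 2 ^ j ∧ 2 ^ j ≤ 2 * (3 + 3 * (3 * r + 1)) := by
    refine ⟨Nat.clog 2 (3 + 3 * (3 * r + 1)), Nat.le_pow_clog (by norm_num) _, ?_⟩
    have h1 := Nat.pow_pred_clog_lt_self (b := 2) (by norm_num) (x := 3 + 3 * (3 * r + 1)) (by omega)
    have h2 : 0 < Nat.clog 2 (3 + 3 * (3 * r + 1)) := Nat.clog_pos (by norm_num) (by omega)
    obtain ⟨q, hq⟩ := Nat.exists_eq_add_of_le' h2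
    rw [hq] at h1 ⊢
    have h3 : (q + 1).pred = q := rfl
    rw [h3] at h1
    rw [pow_succ]
    omega
  obtain ⟨T⟩ := exists_pat (Lp r) (3 * r + 1) j hcU hj1
  have hnon : IsEmpty (big (prt hr) (tw false) T ≃g big (prt hr) (tw true) T) := by
    refine ⟨fun φ => ?_⟩
    obtain ⟨ψ⟩ := cfi_iso φ
    have h1 := parity ψ
    have h2 : ∑ v : Lp r, tw false v = 0 := Finset.sum_eq_zero fun v _ => rfl
    rw [h2, sum_tw hrodd] at h1
    exact zero_ne_one h1
  have hinj : Function.Injective fun b => (big (prt hr) (tw b) T).Adj := by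
    intro b b' hbb
    have h1 : big (prt hr) (tw b) T = big (prt hr) (tw b') T := SimpleGraph.ext hbb
    cases b <;> cases b'
    · rfl
    · rw [← h1] at hnon
      exact (hnon.false (RelIso.refl _)).elim
    · rw [h1] at hnon
      exact (hnon.false (RelIso.refl _)).elim
    · rfl
  have hn : 2 ≤ r * 3 ^ (r - 1) := by
    have : 1 ≤ 3 ^ (r - 1) := Nat.one_le_pow _ _ (by norm_num)
    calc 2 ≤ r * 1 := by omega
      _ ≤ _ := Nat.mul_le_mul_left _ this
  let F := bFam hr hn (inc_LE (r := r) (by omega)) tw T hinj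
  have hK : 8 * k ≤ 3 ^ (r - 4) := by
    have h1 : 3 ^ (g + 3) ≤ 3 ^ (r - 4) := Nat.pow_le_pow_right (by norm_num) (by omega)
    have h2 : 3 ^ (g + 3) = 9 * 3 ^ (g + 1) := by
      rw [show g + 3 = g + 1 + 2 by omega, pow_add]
      ring
    omega
  have hch : ∀ (K : Type) [Field K], (2 : K) ≠ 0 →
      ((Fintype.card (Ed r → ZMod 2) : ℕ) : K) ≠ 0 := by
    intro K _ h3
    rw [Fintype.card_fun, ZMod.card, Nat.cast_pow]
    exact pow_ne_zero _ (by exact_mod_cast h3)
  refine ⟨Bv (Lp r) j, inferInstance, big (prt hr) (tw false) T, big (prt hr) (tw true) T, ?_,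
    big_spec _ _ _, big_spec _ _ _, hnon, fun i hi => ⟨?_, ?_⟩⟩
  · rw [Fintype.card_prod, Fintype.card_prod, Fintype.card_prod, Fintype.card_prod, ZMod.card,
      card_Lp, Lay.card]
    obtain ⟨L, hL⟩ : ∃ L, L = Nat.log 2 k := ⟨_, rfl⟩
    rw [← hL] at hgl ⊢
    have h1 : r * 3 ^ r ≤ 52488 * ((L + 1) * k) := by
      calc r * 3 ^ r ≤ (g + 8) * 3 ^ (g + 8) := by
            refine Nat.mul_le_mul hr2 ?_
            exact Nat.pow_le_pow_right (by norm_num) hr2
        _ = 6561 * ((g + 8) * 3 ^ g) := by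
          rw [pow_add]
          ring
        _ ≤ 6561 * (8 * (L + 1) * k) := by
          refine Nat.mul_le_mul_left _ (Nat.mul_le_mul (by omega) hk3)
        _ = _ := by ring
    have h2 : 2 ^ j ≤ 156 * (L + 1) := by omega
    calc 2 * (r * 3 ^ r) * (2 * 2) * (2 * 2 ^ j) = 16 * ((r * 3 ^ r) * 2 ^ j) := by ring
      _ ≤ 16 * ((52488 * ((L + 1) * k)) * (156 * (L + 1))) :=
        Nat.mul_le_mul_left _ (Nat.mul_le_mul h1 h2)
      _ = _ := by ring
  · refine F.wl (fun b => big (prt hr) (tw b) T) (fun _ => rfl) false true i ?_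
    show 2 * (i + 1) ≤ 3 ^ (r - 4)
    omega
  · obtain ⟨M, hM⟩ := F.bot_sol false true
    refine F.indist (p := 2) (k := i) (s0 := 0) ?_ ?_ (v := []) (M := M) ?_ hM
    · exact_mod_cast hch
    · show 0 + 4 * (2 * i) ≤ 3 ^ (r - 4)
      omega
    · show F.size ⊥ ≤ 0
      rw [F.size_bot]

end Pool.Agent.H153SS
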