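import Pool.Agent.H153SS.Spectral
import Pool.Agent.Y598.VT.Cfi

/-!
# The graphs with simple eigenvalues
-/

set_option autoImplicit false
set_option linter.unusedSectionVars false

namespace Pool.Agent.H153SS

open Finset Lay Pool.Agent.Y598.VT

/-- The signs. -/
def sg (t : ZMod 2) : ℤ := if t = 0 then 1 else -1

theorem sg_add : ∀ s t : ZMod 2, sg (s + t) = sg s * sg t := by decide

/-- The pairs. -/
abbrev Z2 : Type := ZMod 2 × ZMod 2

/-- The scalar product. -/
def dt (a β : Z2) : ZMod 2 := a.1 * β.1 + a.2 * β.2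

/-- The characters of the group of the signs of a fibre. -/
def chi (a s : Z2 × ZMod 2) : ℤ := sg (dt a.1 s.1 + a.2 * s.2)

theorem chi_add (a s t : Z2 × ZMod 2) : chi a (s + t) = chi a s * chi a t := by
  unfold chi
  rw [← sg_add]
  congr 1
  unfold dt
  simp only [Prod.fst_add, Prod.snd_add]
  ring

theorem chi_sq : ∀ a s : Z2 × ZMod 2, chi a s * chi a s = 1 := by decide

set_option maxRecDepth 100000 in
theorem chi_orth : ∀ s t : Z2 × ZMod 2, ∑ a, chi a s * chi a t = if s = t then 8 else 0 := by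
  decide

/-- The characters of the ports. -/
def pc (p : Fin 3) : Z2 := if p = 0 then (1, 1) else if p = 1 then (1, 0) else (0, 1)

/-- The patterns of the layers. -/
structure Pat (U : Type) (j : ℕ) where
  E : U → Lay j → Finset Z2
  root : ∀ v, E v (rt j) = {0}
  shape : ∀ v i, i ≠ rt j → E v i = ∅ ∨ ∃ ρ, ρ ≠ 0 ∧ E v i = {0, ρ}
  fst : ∃ i, ∀ v, E v i = {0, (1, 0)}
  snd : ∃ i, ∀ v, E v i = {0, (0, 1)}
  sep : ∀ v w, v ≠ w → ∀ q : Fin 3, ∃ i, (E v i = {0, pc q} ∧ E w i = ∅) ∨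
    (E v i = ∅ ∧ E w i = {0, pc q})

variable {U : Type} {j : ℕ}

/-- The vertices. -/
abbrev Bv (U : Type) (j : ℕ) : Type := Cv U × (ZMod 2 × Lay j)

/-- The graph: the layers of a vertex form a corona (first line), the two copies of a layer of a
fibre are joined according to the pattern (second line), and in the first layer there is the
graph of Cai, Fürer and Immerman (third line). -/
def big (P : Ports U) (b : U → ZMod 2) (T : Pat U j) : SimpleGraph (Bv U j) where
  Adj z z' := (z.1 = z'.1 ∧ z.2.1 = z'.2.1 ∧ cor j z.2.2 z'.2.2) ∨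
    (z.1.1 = z'.1.1 ∧ z.2.2 = z'.2.2 ∧ z'.2.1 = z.2.1 + 1 ∧
      z'.1.2 - z.1.2 ∈ T.E z.1.1 z.2.2) ∨
    (z.2.2 = rt j ∧ z'.2.2 = rt j ∧ (cfi P b).Adj z.1 z'.1)
  symm := ⟨by
    rintro z z' (⟨h1, h2, h3⟩ | ⟨h1, h2, h3, h4⟩ | ⟨h1, h2, h3⟩)
    · exact Or.inl ⟨h1.symm, h2.symm, cor_symm j _ _ h3⟩
    · refine Or.inr (Or.inl ⟨h1.symm, h2.symm, ?_, ?_⟩)
      · rw [h3]
        have key : ∀ c : ZMod 2, c = c + 1 + 1 := by decide
        exact key _
      · rw [← h1, ← h2]
        have key : ∀ β γ : Z2, γ - β = β - γ := by decide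
        rw [key]
        exact h4
    · exact Or.inr (Or.inr ⟨h2, h1, h3.symm⟩)⟩
  loopless := ⟨by
    rintro z (⟨h1, h2, h3⟩ | ⟨h1, h2, h3, h4⟩ | ⟨h1, h2, h3⟩)
    · exact cor_irrefl j _ h3
    · have key : ∀ c : ZMod 2, c ≠ c + 1 := by decide
      exact key _ h3
    · exact (cfi P b).loopless.irrefl _ h3⟩

theorem big_adj {P : Ports U} {b : U → ZMod 2} {T : Pat U j} {z z' : Bv U j} :
    (big P b T).Adj z z' ↔ (z.1 = z'.1 ∧ z.2.1 = z'.2.1 ∧ cor j z.2.2 z'.2.2) ∨
    (z.1.1 = z'.1.1 ∧ z.2.2 = z'.2.2 ∧ z'.2.1 = z.2.1 + 1 ∧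
      z'.1.2 - z.1.2 ∈ T.E z.1.1 z.2.2) ∨
    (z.2.2 = rt j ∧ z'.2.2 = rt j ∧ (cfi P b).Adj z.1 z'.1) := Iff.rfl

section sums

variable [Fintype U]

open Classical in
theorem sum_one (X : Bv U j → ℝ) (x : Cv U) (c : ZMod 2) (i : Lay j) :
    ∑ z' : Bv U j, (if x = z'.1 ∧ c = z'.2.1 ∧ cor j i z'.2.2 then X z' else 0) =
      cs j (fun i' => X (x, (c, i'))) i := by
  rw [cs_eq, Fintype.sum_prod_type, Finset.sum_eq_single x]
  · rw [Fintype.sum_prod_type, Finset.sum_eq_single c]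
    · refine Finset.sum_congr rfl fun i' _ => ?_
      refine if_congr ?_ rfl rfl
      constructor
      · exact fun h => h.2.2
      · exact fun h => ⟨rfl, rfl, h⟩
    · intro c' _ hc'
      refine Finset.sum_eq_zero fun i' _ => ?_
      rw [if_neg]
      exact fun h => hc' h.2.1.symm
    · exact fun h => absurd (Finset.mem_univ _) h
  · intro x' _ hx'
    refine Finset.sum_eq_zero fun q _ => ?_
    rw [if_neg]
    exact fun h => hx' h.1.symm
  · exact fun h => absurd (Finset.mem_univ _) h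

open Classical in
theorem sum_two (X : Bv U j → ℝ) (E : Finset Z2) (v : U) (β : Z2) (c : ZMod 2) (i : Lay j) :
    ∑ z' : Bv U j, (if v = z'.1.1 ∧ i = z'.2.2 ∧ z'.2.1 = c + 1 ∧ z'.1.2 - β ∈ E
      then X z' else 0) = ∑ ρ ∈ E, X ((v, β + ρ), (c + 1, i)) := by
  rw [← Finset.sum_filter]
  symm
  refine Finset.sum_bij (fun ρ _ => ((v, β + ρ), (c + 1, i))) ?_ ?_ ?_ ?_
  · intro ρ hρ
    refine Finset.mem_filter.2 ⟨Finset.mem_univ _, rfl, rfl, rfl, ?_⟩
    show β + ρ - β ∈ E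
    rw [add_sub_cancel_left]
    exact hρ
  · intro ρ _ ρ' _ h
    have h1 : β + ρ = β + ρ' := congrArg (fun q : Bv U j => q.1.2) h
    exact add_left_cancel h1
  · rintro ⟨⟨v', β'⟩, ⟨c', i'⟩⟩ h
    obtain ⟨_, h1, h2, h3, h4⟩ := Finset.mem_filter.1 h
    simp only at h1 h2 h3 h4
    subst h1 h2 h3
    refine ⟨β' - β, h4, ?_⟩
    rw [add_sub_cancel]
  · intro ρ _
    rfl

open Classical in
theorem sum_three (P : Ports U) (b : U → ZMod 2) (X : Bv U j → ℝ) (x : Cv U) (i : Lay j) :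
    ∑ z' : Bv U j, (if i = rt j ∧ z'.2.2 = rt j ∧ (cfi P b).Adj x z'.1 then X z' else 0) =
      if i = rt j then ∑ x', (if (cfi P b).Adj x x' then ∑ c', X (x', (c', rt j)) else 0)
      else 0 := by
  by_cases hi : i = rt j
  · rw [if_pos hi, Fintype.sum_prod_type]
    refine Finset.sum_congr rfl fun x' _ => ?_
    by_cases h : (cfi P b).Adj x x'
    · rw [if_pos h, Fintype.sum_prod_type]
      refine Finset.sum_congr rfl fun c' _ => ?_
      rw [Finset.sum_eq_single (rt j)]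
      · rw [if_pos ⟨hi, rfl, h⟩]
      · intro i' _ hi'
        rw [if_neg]
        exact fun h' => hi' h'.2.1
      · exact fun h => absurd (Finset.mem_univ _) h
    · rw [if_neg h]
      refine Finset.sum_eq_zero fun q _ => ?_
      rw [if_neg]
      exact fun h' => h h'.2.2
  · rw [if_neg hi]
    refine Finset.sum_eq_zero fun z' _ => ?_
    rw [if_neg]
    exact fun h => hi h.1

open Classical in
/-- The sum over the neighbours. -/
theorem adj_sum (P : Ports U) (b : U → ZMod 2) (T : Pat U j) (X : Bv U j → ℝ) (z : Bv U j) :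
    ∑ z', (if (big P b T).Adj z z' then X z' else 0) =
      cs j (fun i' => X (z.1, (z.2.1, i'))) z.2.2 +
      ∑ ρ ∈ T.E z.1.1 z.2.2, X ((z.1.1, z.1.2 + ρ), (z.2.1 + 1, z.2.2)) +
      if z.2.2 = rt j then ∑ x', (if (cfi P b).Adj z.1 x' then ∑ c', X (x', (c', rt j)) else 0)
      else 0 := by
  rw [← sum_one X z.1 z.2.1 z.2.2, ← sum_two X (T.E z.1.1 z.2.2) z.1.1 z.1.2 z.2.1 z.2.2,
    ← sum_three P b X z.1 z.2.2, ← Finset.sum_add_distrib, ← Finset.sum_add_distrib]
  refine Finset.sum_congr rfl fun z' _ => ?_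
  by_cases h1 : z.1 = z'.1 ∧ z.2.1 = z'.2.1 ∧ cor j z.2.2 z'.2.2
  · have h2 : ¬ (z.1.1 = z'.1.1 ∧ z.2.2 = z'.2.2 ∧ z'.2.1 = z.2.1 + 1 ∧
      z'.1.2 - z.1.2 ∈ T.E z.1.1 z.2.2) := fun h => cor_ne h1.2.2 h.2.1
    have h3 : ¬ (z.2.2 = rt j ∧ z'.2.2 = rt j ∧ (cfi P b).Adj z.1 z'.1) :=
      fun h => cor_ne h1.2.2 (h.1.trans h.2.1.symm)
    rw [if_pos (big_adj.2 (Or.inl h1)), if_pos h1, if_neg h2, if_neg h3, add_zero, add_zero]
  · by_cases h2 : z.1.1 = z'.1.1 ∧ z.2.2 = z'.2.2 ∧ z'.2.1 = z.2.1 + 1 ∧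
      z'.1.2 - z.1.2 ∈ T.E z.1.1 z.2.2
    · have h3 : ¬ (z.2.2 = rt j ∧ z'.2.2 = rt j ∧ (cfi P b).Adj z.1 z'.1) := by
        rintro ⟨_, _, p, h4, _⟩
        exact P.nb_ne _ _ (h4.trans h2.1.symm)
      rw [if_pos (big_adj.2 (Or.inr (Or.inl h2))), if_neg h1, if_pos h2, if_neg h3, add_zero,
        zero_add]
    · by_cases h3 : z.2.2 = rt j ∧ z'.2.2 = rt j ∧ (cfi P b).Adj z.1 z'.1
      · rw [if_pos (big_adj.2 (Or.inr (Or.inr h3))), if_neg h1, if_neg h2, if_pos h3, zero_add,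
          zero_add]
      · rw [if_neg h1, if_neg h2, if_neg h3, if_neg, add_zero, add_zero]
        intro h
        rcases big_adj.1 h with h | h | h
        · exact h1 h
        · exact h2 h
        · exact h3 h

end sums

/-! ### The transform -/

/-- The transform. -/
noncomputable def tr (X : Bv U j → ℝ) (ω : U × (Z2 × ZMod 2)) (i : Lay j) : ℝ :=
  ∑ s : Z2 × ZMod 2, (chi ω.2 s : ℝ) * X ((ω.1, s.1), (s.2, i))

theorem tr_inj {X : Bv U j → ℝ} (h : tr X = 0) : X = 0 := by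
  funext z
  obtain ⟨⟨v, β⟩, ⟨c, i⟩⟩ := z
  have h1 : ∑ a : Z2 × ZMod 2, (chi a (β, c) : ℝ) * tr X (v, a) i = 0 := by
    rw [h]
    simp
  unfold tr at h1
  simp only [Finset.mul_sum] at h1
  rw [Finset.sum_comm] at h1
  have h2 : ∀ s : Z2 × ZMod 2, ∑ a : Z2 × ZMod 2,
      (chi a (β, c) : ℝ) * ((chi a s : ℝ) * X ((v, s.1), (s.2, i))) =
      if (β, c) = s then 8 * X ((v, s.1), (s.2, i)) else 0 := by
    intro s
    have h3 := chi_orth (β, c) s
    have h4 : ∑ a : Z2 × ZMod 2, (chi a (β, c) : ℝ) * ((chi a s : ℝ) * X ((v, s.1), (s.2, i))) =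
        ((∑ a, chi a (β, c) * chi a s : ℤ) : ℝ) * X ((v, s.1), (s.2, i)) := by
      push_cast
      rw [Finset.sum_mul]
      refine Finset.sum_congr rfl fun a _ => ?_
      ring
    rw [h4, h3]
    split_ifs
    · norm_num
    · norm_num
  simp only [h2] at h1
  rw [Finset.sum_ite_eq] at h1
  simp only [Finset.mem_univ, if_true] at h1
  have h5 : X ((v, β), (c, i)) = 0 := by linarith
  exact h5

theorem tr_lin (X Y : Bv U j → ℝ) (c : ℝ) : tr (Y - c • X) = tr Y - c • tr X := by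
  funext ω i
  show ∑ s : Z2 × ZMod 2, (chi ω.2 s : ℝ) * (Y ((ω.1, s.1), (s.2, i)) -
    c * X ((ω.1, s.1), (s.2, i))) = (∑ s : Z2 × ZMod 2, (chi ω.2 s : ℝ) *
    Y ((ω.1, s.1), (s.2, i))) - c * ∑ s : Z2 × ZMod 2, (chi ω.2 s : ℝ) *
    X ((ω.1, s.1), (s.2, i))
  rw [Finset.mul_sum, ← Finset.sum_sub_distrib]
  refine Finset.sum_congr rfl fun s _ => ?_
  ring

theorem cs_sum {S : Type} [Fintype S] (f : S → ℝ) (x : S → Lay j → ℝ) (i : Lay j) :
    ∑ s, f s * cs j (x s) i = cs j (fun i' => ∑ s, f s * x s i') i := by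
  classical
  rw [cs_eq]
  simp only [cs_eq, Finset.mul_sum]
  rw [Finset.sum_comm]
  refine Finset.sum_congr rfl fun i' _ => ?_
  by_cases h : cor j i i'
  · rw [if_pos h]
    refine Finset.sum_congr rfl fun s _ => ?_
    rw [if_pos h]
  · rw [if_neg h]
    refine Finset.sum_eq_zero fun s _ => ?_
    rw [if_neg h, mul_zero]

/-- The loops of the system. -/
def kk (T : Pat U j) (ω : U × (Z2 × ZMod 2)) (i : Lay j) : ℤ :=
  ∑ ρ ∈ T.E ω.1 i, chi ω.2 (ρ, 1)

theorem chi_cast (a : Z2 × ZMod 2) (ρ : Z2) (s : Z2 × ZMod 2) (y : ℝ) :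
    (chi a s : ℝ) * y = (chi a (ρ, 1) : ℝ) * ((chi a (s + (ρ, 1)) : ℝ) * y) := by
  rw [chi_add]
  push_cast
  have h1 : (chi a (ρ, 1) : ℝ) * (chi a (ρ, 1) : ℝ) = 1 := by
    exact_mod_cast chi_sq a (ρ, 1)
  linear_combination -(chi a s : ℝ) * y * h1

theorem tr_shift (X : Bv U j → ℝ) (ω : U × (Z2 × ZMod 2)) (i : Lay j) (ρ : Z2) :
    ∑ s : Z2 × ZMod 2, (chi ω.2 s : ℝ) * X ((ω.1, s.1 + ρ), (s.2 + 1, i)) =
      (chi ω.2 (ρ, 1) : ℝ) * tr X ω i := by
  unfold tr
  rw [Finset.mul_sum]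
  refine Fintype.sum_equiv (Equiv.addRight ((ρ, 1) : Z2 × ZMod 2)) _ _ fun s => ?_
  exact chi_cast ω.2 ρ s _

theorem tr_two (T : Pat U j) (X : Bv U j → ℝ) (ω : U × (Z2 × ZMod 2)) (i : Lay j) :
    ∑ s : Z2 × ZMod 2, (chi ω.2 s : ℝ) * ∑ ρ ∈ T.E ω.1 i,
      X ((ω.1, s.1 + ρ), (s.2 + 1, i)) = (kk T ω i : ℝ) * tr X ω i := by
  simp only [Finset.mul_sum]
  rw [Finset.sum_comm]
  simp only [tr_shift]
  unfold kk
  push_cast
  rw [Finset.sum_mul]

/-- The twist at a port. -/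
def sv (b : U → ZMod 2) (v : U) (p : Fin 3) : ZMod 2 := if p = 0 then b v else 0

theorem val_eq (b : U → ZMod 2) (x : Cv U) (p : Fin 3) :
    val b x p = sv b x.1 p + dt (pc p) x.2 := by
  have key : ∀ (t β1 β2 : ZMod 2) (p : Fin 3),
      (if p = 0 then t + β1 + β2 else if p = 1 then β1 else β2) =
      (if p = 0 then t else 0) + dt (pc p) (β1, β2) := by decide
  exact key _ _ _ _

set_option maxRecDepth 100000 in
/-- The sum over a fibre. -/
theorem port_sum : ∀ (a : Z2) (p : Fin 3) (t u : ZMod 2),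
    ∑ β : Z2, sg (dt a β) * (if t + dt (pc p) β = u then 1 else 0) =
      2 * (if a = 0 then 1 else if a = pc p then sg (t + u) else 0) := by decide

theorem sum_sg : ∀ d : ZMod 2, ∑ c : ZMod 2, sg (d * c) = if d = 0 then 2 else 0 := by decide

section coupling

variable [Fintype U] [DecidableEq U]

open Classical in
/-- The neighbours in the graph of Cai, Fürer and Immerman. -/
theorem cfi_sum (P : Ports U) (b : U → ZMod 2) (Z : Cv U → ℝ) (x : Cv U) :
    ∑ x', (if (cfi P b).Adj x x' then Z x' else 0) = ∑ p : Fin 3, ∑ β' : Z2,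
      (if val b x p = val b (P.nb x.1 p, β') (P.rv p) then Z (P.nb x.1 p, β') else 0) := by
  have h1 : ∀ x', (if (cfi P b).Adj x x' then Z x' else 0) = ∑ p : Fin 3,
      (if P.nb x.1 p = x'.1 ∧ val b x p = val b x' (P.rv p) then Z x' else 0) := by
    intro x'
    by_cases h : (cfi P b).Adj x x'
    · obtain ⟨p, h2, h3⟩ := h
      rw [if_pos (cfi_adj P |>.2 ⟨p, h2, h3⟩), Finset.sum_eq_single p]
      · rw [if_pos ⟨h2, h3⟩]
      · intro q _ hq
        rw [if_neg]
        rintro ⟨h4, _⟩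
        exact hq (P.nb_inj _ _ _ (h4.trans h2.symm))
      · exact fun h => absurd (Finset.mem_univ _) h
    · rw [if_neg h]
      symm
      refine Finset.sum_eq_zero fun p _ => ?_
      rw [if_neg]
      rintro ⟨h2, h3⟩
      exact h ((cfi_adj P).2 ⟨p, h2, h3⟩)
  simp only [h1]
  rw [Finset.sum_comm]
  refine Finset.sum_congr rfl fun p _ => ?_
  rw [Fintype.sum_prod_type, Finset.sum_eq_single (P.nb x.1 p)]
  · refine Finset.sum_congr rfl fun β' _ => ?_
    refine if_congr ?_ rfl rfl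
    constructor
    · exact fun h => h.2
    · exact fun h => ⟨rfl, h⟩
  · intro v _ hv
    refine Finset.sum_eq_zero fun β' _ => ?_
    rw [if_neg]
    exact fun h => hv h.1.symm
  · exact fun h => absurd (Finset.mem_univ _) h

/-- The coupling of the system. -/
def gg (P : Ports U) (b : U → ZMod 2) (ω ω' : U × (Z2 × ZMod 2)) : ℤ :=
  if ω.2.2 = 0 then ∑ p : Fin 3, (if ω.2.1 = 0 then (if (P.nb ω.1 p, (0, 0)) = ω' then 1 else 0)
    else if ω.2.1 = pc p then (if (P.nb ω.1 p, (pc (P.rv p), 0)) = ω' then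
      sg (sv b ω.1 p + sv b (P.nb ω.1 p) (P.rv p)) else 0) else 0) else 0

theorem gg_sum (P : Ports U) (b : U → ZMod 2) (ω : U × (Z2 × ZMod 2))
    (r : U × (Z2 × ZMod 2) → ℝ) :
    ∑ ω', (gg P b ω ω' : ℝ) * r ω' = if ω.2.2 = 0 then ∑ p : Fin 3,
      (if ω.2.1 = 0 then r (P.nb ω.1 p, (0, 0)) else if ω.2.1 = pc p then
        (sg (sv b ω.1 p + sv b (P.nb ω.1 p) (P.rv p)) : ℝ) * r (P.nb ω.1 p, (pc (P.rv p), 0))
      else 0) else 0 := by
  unfold gg
  by_cases hd : ω.2.2 = 0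
  · simp only [if_pos hd]
    push_cast
    simp only [Finset.sum_mul]
    rw [Finset.sum_comm]
    refine Finset.sum_congr rfl fun p _ => ?_
    by_cases ha : ω.2.1 = 0
    · simp only [if_pos ha]
      rw [Finset.sum_eq_single (P.nb ω.1 p, (0, 0))]
      · rw [if_pos rfl, one_mul]
      · intro ω' _ h
        rw [if_neg (Ne.symm h), zero_mul]
      · exact fun h => absurd (Finset.mem_univ _) h
    · simp only [if_neg ha]
      by_cases hp : ω.2.1 = pc p
      · simp only [if_pos hp]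
        rw [Finset.sum_eq_single (P.nb ω.1 p, (pc (P.rv p), 0))]
        · rw [if_pos rfl]
        · intro ω' _ h
          rw [if_neg (Ne.symm h), zero_mul]
        · exact fun h => absurd (Finset.mem_univ _) h
      · simp only [if_neg hp, zero_mul, Finset.sum_const_zero]
  · simp only [if_neg hd, Int.cast_zero, zero_mul, Finset.sum_const_zero]

theorem tr_root (X : Bv U j → ℝ) (v : U) (a : Z2) :
    tr X (v, (a, 0)) (rt j) =
      ∑ β : Z2, (sg (dt a β) : ℝ) * ∑ c, X ((v, β), (c, rt j)) := by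
  unfold tr
  rw [Fintype.sum_prod_type]
  refine Finset.sum_congr rfl fun β _ => ?_
  rw [Finset.mul_sum]
  refine Finset.sum_congr rfl fun c _ => ?_
  show (sg (dt a β + 0 * c) : ℝ) * _ = _
  rw [zero_mul, add_zero]

open Classical in
theorem tr_three (P : Ports U) (b : U → ZMod 2) (X : Bv U j → ℝ) (ω : U × (Z2 × ZMod 2)) :
    ∑ s : Z2 × ZMod 2, (chi ω.2 s : ℝ) * ∑ x', (if (cfi P b).Adj (ω.1, s.1) x' then
      ∑ c', X (x', (c', rt j)) else 0) = 4 * ∑ ω', (gg P b ω ω' : ℝ) * tr X ω' (rt j) := by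
  obtain ⟨v, a, d⟩ := ω
  rw [gg_sum]
  simp only
  obtain ⟨A, hA⟩ : ∃ A : Z2 → ℝ, ∀ β, A β = ∑ x', (if (cfi P b).Adj (v, β) x' then
      ∑ c', X (x', (c', rt j)) else 0) := ⟨_, fun _ => rfl⟩
  have h1 : ∑ s : Z2 × ZMod 2, (chi (a, d) s : ℝ) * A s.1 =
      (if d = 0 then 2 else 0) * ∑ β, (sg (dt a β) : ℝ) * A β := by
    rw [Fintype.sum_prod_type, Finset.mul_sum]
    refine Finset.sum_congr rfl fun β _ => ?_
    have h2 : ∀ c : ZMod 2, (chi (a, d) (β, c) : ℝ) * A β =
        (sg (d * c) : ℝ) * ((sg (dt a β) : ℝ) * A β) := by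
      intro c
      have h3 : chi (a, d) (β, c) = sg (dt a β) * sg (d * c) := sg_add _ _
      rw [h3]
      push_cast
      ring
    simp only [h2]
    rw [← Finset.sum_mul]
    congr 1
    have h4 := sum_sg d
    have h5 : ((∑ c : ZMod 2, sg (d * c) : ℤ) : ℝ) = (((if d = 0 then 2 else 0 : ℤ)) : ℝ) := by
      rw [h4]
    push_cast at h5
    exact h5
  simp only [← hA]
  rw [h1]
  by_cases hd : d = 0
  · rw [if_pos hd, if_pos hd]
    have h2 : ∑ β, (sg (dt a β) : ℝ) * A β = ∑ p : Fin 3, ∑ β' : Z2,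
        ((2 * (if a = 0 then 1 else if a = pc p then
          sg (sv b v p + val b (P.nb v p, β') (P.rv p)) else 0) : ℤ) : ℝ) *
          ∑ c', X ((P.nb v p, β'), (c', rt j)) := by
      have h3 : ∀ β, (sg (dt a β) : ℝ) * A β = ∑ p : Fin 3, ∑ β' : Z2,
          (sg (dt a β) : ℝ) * (if sv b v p + dt (pc p) β = val b (P.nb v p, β') (P.rv p) then
            ∑ c', X ((P.nb v p, β'), (c', rt j)) else 0) := by
        intro β
        rw [hA, cfi_sum, Finset.mul_sum]
        refine Finset.sum_congr rfl fun p _ => ?_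
        rw [Finset.mul_sum]
        refine Finset.sum_congr rfl fun β' _ => ?_
        rw [val_eq b (v, β) p]
      simp only [h3]
      rw [Finset.sum_comm]
      refine Finset.sum_congr rfl fun p _ => ?_
      rw [Finset.sum_comm]
      refine Finset.sum_congr rfl fun β' _ => ?_
      rw [← port_sum a p (sv b v p) (val b (P.nb v p, β') (P.rv p))]
      push_cast
      rw [Finset.sum_mul]
      refine Finset.sum_congr rfl fun β _ => ?_
      split_ifs
      · ring
      · ring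
    rw [h2, Finset.mul_sum, Finset.mul_sum]
    refine Finset.sum_congr rfl fun p _ => ?_
    by_cases ha : a = 0
    · simp only [if_pos ha]
      rw [tr_root]
      rw [Finset.mul_sum, Finset.mul_sum]
      refine Finset.sum_congr rfl fun β' _ => ?_
      have h4 : sg (dt 0 β') = 1 := by
        have key : ∀ β' : Z2, sg (dt 0 β') = 1 := by decide
        exact key _
      rw [h4]
      push_cast
      ring
    · simp only [if_neg ha]
      by_cases hp : a = pc p
      · simp only [if_pos hp]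
        rw [tr_root]
        rw [Finset.mul_sum, Finset.mul_sum, Finset.mul_sum]
        refine Finset.sum_congr rfl fun β' _ => ?_
        rw [val_eq b (P.nb v p, β') (P.rv p), ← add_assoc, sg_add]
        push_cast
        ring
      · simp only [if_neg hp]
        rw [Finset.sum_eq_zero]
        · ring
        · intro β' _
          push_cast
          ring
  · rw [if_neg hd, if_neg hd]
    ring

open Classical in
/-- The eigenvalue equation after the transform. -/
theorem sys_tr (P : Ports U) (b : U → ZMod 2) (T : Pat U j) {X : Bv U j → ℝ} {θ : ℝ}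
    (hX : ∀ z, ∑ z', (if (big P b T).Adj z z' then X z' else 0) = θ * X z) :
    Sys j (kk T) (gg P b) θ (tr X) := by
  intro ω i
  have h1 : ∑ s : Z2 × ZMod 2, (chi ω.2 s : ℝ) * ∑ z', (if (big P b T).Adj
      ((ω.1, s.1), (s.2, i)) z' then X z' else 0) = θ * tr X ω i := by
    unfold tr
    rw [Finset.mul_sum]
    refine Finset.sum_congr rfl fun s _ => ?_
    rw [hX]
    ring
  rw [← h1]
  simp only [adj_sum, mul_add, Finset.sum_add_distrib]
  rw [tr_two, cs_sum]
  congr 1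
  by_cases hi : i = rt j
  · simp only [if_pos hi]
    rw [tr_three]
  · simp only [if_neg hi, mul_zero, Finset.sum_const_zero]

end coupling

/-! ### The loops separate -/

theorem even_sum (a : Z2 × ZMod 2) (ρ : Z2) (hρ : ρ ≠ 0) :
    ∑ σ ∈ ({0, ρ} : Finset Z2), chi a (σ, 1) = chi a (0, 1) + chi a (ρ, 1) := by
  rw [Finset.sum_pair (Ne.symm hρ)]

theorem chi_odd : ∀ a s : Z2 × ZMod 2, chi a s % 2 = 1 := by decide

theorem pc_ne : ∀ q : Fin 3, pc q ≠ 0 := by decide

theorem good_kk (T : Pat U j) : Loops j (kk T) where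
  odd ω := by
    unfold kk
    rw [T.root, Finset.sum_singleton]
    exact chi_odd _ _
  even ω i hi := by
    unfold kk
    rcases T.shape ω.1 i hi with h | ⟨ρ, hρ, h⟩
    · rw [h, Finset.sum_empty]
      rfl
    · rw [h, even_sum _ _ hρ]
      have h1 := chi_odd ω.2 (0, 1)
      have h2 := chi_odd ω.2 (ρ, 1)
      omega
  sep := by
    rintro ⟨v, a⟩ ⟨w, a'⟩ hne
    by_cases haa : a = a'
    · subst haa
      have hvw : v ≠ w := by
        rintro rfl
        exact hne rfl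
      have key : ∀ a : Z2 × ZMod 2, ∃ q : Fin 3, (chi a (0, 1) + chi a (pc q, 1)) % 4 ≠ 0 ∧
          (-(chi a (0, 1) + chi a (pc q, 1))) % 4 ≠ 0 := by decide
      obtain ⟨q, hq1, hq2⟩ := key a
      obtain ⟨i, h | h⟩ := T.sep v w hvw q
      · refine ⟨i, ?_⟩
        unfold kk
        rw [h.1, h.2, even_sum _ _ (pc_ne q), Finset.sum_empty, sub_zero]
        exact hq1
      · refine ⟨i, ?_⟩
        unfold kk
        rw [h.1, h.2, even_sum _ _ (pc_ne q), Finset.sum_empty, zero_sub]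
        exact hq2
    · have key : ∀ a a' : Z2 × ZMod 2, a ≠ a' → (chi a (0, 1) - chi a' (0, 1)) % 4 ≠ 0 ∨
          ((chi a (0, 1) + chi a ((1, 0), 1)) - (chi a' (0, 1) + chi a' ((1, 0), 1))) % 4 ≠ 0 ∨
          ((chi a (0, 1) + chi a ((0, 1), 1)) - (chi a' (0, 1) + chi a' ((0, 1), 1))) % 4 ≠ 0 := by
        decide
      rcases key a a' haa with h | h | h
      · refine ⟨rt j, ?_⟩
        unfold kk
        rw [T.root, T.root, Finset.sum_singleton, Finset.sum_singleton]
        exact h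
      · obtain ⟨i, hi⟩ := T.fst
        refine ⟨i, ?_⟩
        unfold kk
        rw [hi, hi, even_sum _ _ (by decide), even_sum _ _ (by decide)]
        exact h
      · obtain ⟨i, hi⟩ := T.snd
        refine ⟨i, ?_⟩
        unfold kk
        rw [hi, hi, even_sum _ _ (by decide), even_sum _ _ (by decide)]
        exact h

open Classical in
/-- The eigenspaces of the graph have dimension at most one. -/
theorem big_simple [Fintype U] (P : Ports U) (b : U → ZMod 2) (T : Pat U j)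
    {X Y : Bv U j → ℝ} {θ : ℝ}
    (hX : ∀ z, ∑ z', (if (big P b T).Adj z z' then X z' else 0) = θ * X z)
    (hY : ∀ z, ∑ z', (if (big P b T).Adj z z' then Y z' else 0) = θ * Y z) (h0 : X ≠ 0) :
    ∃ c : ℝ, Y = c • X := by
  have h1 := sys_tr P b T hX
  have h2 := sys_tr P b T hY
  obtain ⟨c, hc⟩ := Sys.simple (good_kk T) h1 h2 fun h => h0 (tr_inj h)
  refine ⟨c, sub_eq_zero.1 (tr_inj ?_)⟩
  rw [tr_lin, hc, sub_self]

/-- All eigenvalues of the adjacency matrix are simple: all eigenspaces have dimension at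
most one. -/
def SimpleSpectrum {V : Type} [Fintype V] (G : SimpleGraph V) : Prop :=
  open Classical in
  ∀ μ : ℝ, Module.finrank ℝ (Module.End.eigenspace (Matrix.toLin' (G.adjMatrix ℝ)) μ) ≤ 1

theorem simpleSpectrum_of {V : Type} [Fintype V] (G : SimpleGraph V)
    (h : open Classical in ∀ (θ : ℝ) (X Y : V → ℝ),
      (∀ z, ∑ z', (if G.Adj z z' then X z' else 0) = θ * X z) →
      (∀ z, ∑ z', (if G.Adj z z' then Y z' else 0) = θ * Y z) → X ≠ 0 →
      ∃ c : ℝ, Y = c • X) : SimpleSpectrum G := by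
  classical
  intro μ
  have hev : ∀ X : V → ℝ,
      X ∈ Module.End.eigenspace (Matrix.toLin' (G.adjMatrix ℝ)) μ →
      ∀ z, ∑ z', (if G.Adj z z' then X z' else 0) = μ * X z := by
    intro X hX z
    rw [Module.End.mem_eigenspace_iff, Matrix.toLin'_apply] at hX
    have h1 := congrFun hX z
    rw [SimpleGraph.adjMatrix_mulVec_apply] at h1
    rw [← Finset.sum_filter]
    have h2 : G.neighborFinset z = Finset.univ.filter fun z' => G.Adj z z' := by
      ext z'
      simp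
    rw [← h2]
    exact h1
  by_cases hbot : ∃ X, X ∈ Module.End.eigenspace (Matrix.toLin' (G.adjMatrix ℝ)) μ ∧ X ≠ 0
  · obtain ⟨X, hX, h0⟩ := hbot
    refine finrank_le_one (⟨X, hX⟩ :
      Module.End.eigenspace (Matrix.toLin' (G.adjMatrix ℝ)) μ) fun Y => ?_
    obtain ⟨c, hc⟩ := h μ X Y.1 (hev X hX) (hev Y.1 Y.2) h0
    exact ⟨c, Subtype.ext hc.symm⟩
  · push Not at hbot
    have h1 : Module.End.eigenspace (Matrix.toLin' (G.adjMatrix ℝ)) μ = ⊥ := by
      rw [eq_bot_iff]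
      intro Y hY
      exact hbot Y hY
    rw [h1, finrank_bot]
    exact zero_le_one

theorem big_spec [Fintype U] (P : Ports U) (b : U → ZMod 2) (T : Pat U j) :
    SimpleSpectrum (big P b T) :=
  simpleSpectrum_of _ fun _ _ _ hX hY h0 => big_simple P b T hX hY h0

end Pool.Agent.H153SS
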