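import Mathlib

/-!
# The layers: iterated coronas of a vertex with a loop

The matrix of the iterated corona has, modulo two, eigenvectors all of whose partial sums are
different from zero (the eigenvalues generate Wiedemann's tower of quadratic extensions).
-/

set_option autoImplicit false
set_option linter.unusedSectionVars false

namespace Pool.Agent.H153SS

open Finset

/-- The layers: `Lay 0` is a point, `Lay (j + 1)` consists of two copies of `Lay j`. -/
inductive Lay : ℕ → Type
  | root : Lay 0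
  | top {j : ℕ} : Lay j → Lay (j + 1)
  | bot {j : ℕ} : Lay j → Lay (j + 1)

namespace Lay

/-- The two halves. -/
def halves (j : ℕ) : Lay j ⊕ Lay j ≃ Lay (j + 1) where
  toFun := Sum.elim top bot
  invFun := fun
    | top a => Sum.inl a
    | bot a => Sum.inr a
  left_inv := by
    rintro (a | a) <;> rfl
  right_inv := by
    rintro (_ | a | a) <;> rfl

/-- Decidable equality. -/
@[instance_reducible] def decEq : (j : ℕ) → DecidableEq (Lay j)
  | 0 => fun
    | root, root => isTrue rfl
  | j + 1 => @Equiv.decidableEq _ _ (halves j).symm (@instDecidableEqSum _ _ (decEq j) (decEq j))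

instance (j : ℕ) : DecidableEq (Lay j) := decEq j

/-- The layers are finite in number. -/
@[instance_reducible] def fin : (j : ℕ) → Fintype (Lay j)
  | 0 => ⟨{root}, by rintro ⟨⟩; exact Finset.mem_singleton_self _⟩
  | j + 1 => @Fintype.ofEquiv _ _ (@instFintypeSum _ _ (fin j) (fin j)) (halves j)

instance (j : ℕ) : Fintype (Lay j) := fin j

theorem card : (j : ℕ) → Fintype.card (Lay j) = 2 ^ j
  | 0 => rfl
  | j + 1 => by
    have h : Fintype.card (Lay (j + 1)) = Fintype.card (Lay j ⊕ Lay j) :=
      (Fintype.card_congr (halves j)).symm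
    rw [h, Fintype.card_sum, card j, pow_succ]
    ring

theorem sum_split {M : Type} [AddCommMonoid M] {j : ℕ} (f : Lay (j + 1) → M) :
    ∑ a, f a = ∑ a, f (top a) + ∑ a, f (bot a) := by
  rw [← (halves j).sum_comp, Fintype.sum_sum_type]
  rfl

/-- The first layer. -/
def rt : (j : ℕ) → Lay j
  | 0 => root
  | j + 1 => top (rt j)

/-- The iterated corona: in each step a pendant vertex is attached to every vertex. -/
def cor : (j : ℕ) → Lay j → Lay j → Prop
  | 0, _, _ => False
  | j + 1, top a, top b => cor j a b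
  | _ + 1, top a, bot b => a = b
  | _ + 1, bot a, top b => a = b
  | _ + 1, bot _, bot _ => False

/-- The two colour classes of the corona. -/
def par : (j : ℕ) → Lay j → Bool
  | 0, _ => true
  | j + 1, top a => par j a
  | j + 1, bot a => !par j a

theorem cor_symm : (j : ℕ) → ∀ a b : Lay j, cor j a b → cor j b a
  | 0, root, root, h => h
  | j + 1, top a, top b, h => cor_symm j a b h
  | _ + 1, top _, bot _, h => Eq.symm h
  | _ + 1, bot _, top _, h => Eq.symm h
  | _ + 1, bot _, bot _, h => h

theorem cor_par : (j : ℕ) → ∀ a b : Lay j, cor j a b → par j a = !par j b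
  | 0, root, root, h => False.elim h
  | j + 1, top a, top b, h => cor_par j a b h
  | j + 1, top a, bot b, h => by
    have h' : a = b := h
    subst h'
    show par j a = !(!par j a)
    rw [Bool.not_not]
  | j + 1, bot a, top b, h => by
    have h' : a = b := h
    subst h'
    rfl
  | _ + 1, bot _, bot _, h => False.elim h

theorem cor_irrefl (j : ℕ) (a : Lay j) : ¬ cor j a a := by
  intro h
  have h1 := cor_par j a a h
  cases h2 : par j a <;> rw [h2] at h1 <;> simp at h1

theorem cor_ne {j : ℕ} {a b : Lay j} (h : cor j a b) : a ≠ b := by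
  rintro rfl
  exact cor_irrefl j a h

section ring

variable {R : Type} [CommRing R]

/-- The sum over the neighbours in the corona. -/
def cs : (j : ℕ) → (Lay j → R) → Lay j → R
  | 0, _, _ => 0
  | j + 1, x, top a => cs j (fun b => x (top b)) a + x (bot a)
  | _ + 1, x, bot a => x (top a)

open Classical in
theorem cs_eq : (j : ℕ) → ∀ (x : Lay j → R) (a : Lay j),
    cs j x a = ∑ b, if cor j a b then x b else 0
  | 0, x, root => by
    symm
    refine Finset.sum_eq_zero fun b _ => ?_
    cases b
    rw [if_neg]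
    · exact fun h => h
  | j + 1, x, top a => by
    have h : ∑ b : Lay (j + 1), (if cor (j + 1) (top a) b then x b else 0) =
        ∑ b : Lay j, (if cor (j + 1) (top a) (top b) then x (top b) else 0) +
        ∑ b : Lay j, (if cor (j + 1) (top a) (bot b) then x (bot b) else 0) :=
      sum_split _
    rw [h]
    show cs j (fun b => x (top b)) a + x (bot a) = _
    rw [cs_eq j]
    congr 1
    rw [Finset.sum_eq_single a]
    · rw [if_pos]
      exact rfl
    · intro b _ hb
      rw [if_neg]
      exact fun h => hb (Eq.symm h)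
    · intro h
      exact absurd (Finset.mem_univ _) h
  | j + 1, x, bot a => by
    have h : ∑ b : Lay (j + 1), (if cor (j + 1) (bot a) b then x b else 0) =
        ∑ b : Lay j, (if cor (j + 1) (bot a) (top b) then x (top b) else 0) +
        ∑ b : Lay j, (if cor (j + 1) (bot a) (bot b) then x (bot b) else 0) :=
      sum_split _
    rw [h]
    show x (top a) = _
    rw [Finset.sum_eq_single a]
    · rw [if_pos (show cor (j + 1) (bot a) (top a) from rfl)]
      rw [Finset.sum_eq_zero, add_zero]
      intro b _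
      rw [if_neg]
      exact fun h => h
    · intro b _ hb
      rw [if_neg]
      exact fun h => hb (Eq.symm h)
    · intro h
      exact absurd (Finset.mem_univ _) h

theorem cs_map {S : Type} [CommRing S] (f : R →+* S) : (j : ℕ) → ∀ (x : Lay j → R) (a : Lay j),
    cs j (fun b => f (x b)) a = f (cs j x a)
  | 0, x, a => by
    cases a
    exact (map_zero f).symm
  | j + 1, x, top a => by
    show cs j (fun b => f (x (top b))) a + f (x (bot a)) =
      f (cs j (fun b => x (top b)) a + x (bot a))
    rw [map_add, cs_map f j]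
  | _ + 1, x, bot a => rfl

open Classical in
/-- The matrix of the corona is symmetric. -/
theorem cs_symm (j : ℕ) (x y : Lay j → R) : ∑ a, cs j x a * y a = ∑ a, x a * cs j y a := by
  simp only [cs_eq, Finset.sum_mul, Finset.mul_sum]
  rw [Finset.sum_comm]
  refine Finset.sum_congr rfl fun a _ => Finset.sum_congr rfl fun b _ => ?_
  by_cases h : cor j b a
  · rw [if_pos h, if_pos (cor_symm j _ _ h)]
  · rw [if_neg h, if_neg (fun h' => h (cor_symm j _ _ h')), zero_mul, mul_zero]

/-- Eigenvectors of the corona with a loop at the first layer. -/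
def IsEv (j : ℕ) (θ : R) (x : Lay j → R) : Prop :=
  ∀ a, cs j x a + (if a = rt j then x a else 0) = θ * x a

end ring

section field

variable {κ : Type} [Field κ]

theorem bot_ne_rt (j : ℕ) (a : Lay j) : bot a ≠ rt (j + 1) := by
  intro h
  cases h

theorem top_eq_rt (j : ℕ) (a : Lay j) : top a = rt (j + 1) ↔ a = rt j := by
  constructor
  · intro h
    injection h
  · rintro rfl
    rfl

theorem IsEv.inr {j : ℕ} {θ : κ} {x : Lay (j + 1) → κ} (hx : IsEv (j + 1) θ x) (a : Lay j) :
    x (top a) = θ * x (bot a) := by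
  have h' := hx (bot a)
  rw [if_neg (bot_ne_rt j a), add_zero] at h'
  exact h'

theorem IsEv.inl {j : ℕ} {θ : κ} {x : Lay (j + 1) → κ} (hx : IsEv (j + 1) θ x) (a : Lay j) :
    cs j (fun b => x (top b)) a + x (bot a) +
      (if a = rt j then x (top a) else 0) = θ * x (top a) := by
  have h' := hx (top a)
  rw [if_congr (top_eq_rt j a) rfl rfl] at h'
  exact h'

/-- The top half of an eigenvector is an eigenvector. -/
theorem IsEv.down {j : ℕ} {θ : κ} {x : Lay (j + 1) → κ} (hx : IsEv (j + 1) θ x) (hθ : θ ≠ 0) :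
    IsEv j (θ - θ⁻¹) (fun b => x (top b)) ∧ ∀ a, x (bot a) = θ⁻¹ * x (top a) := by
  have h1 : ∀ a, x (bot a) = θ⁻¹ * x (top a) := by
    intro a
    rw [hx.inr a, ← mul_assoc, inv_mul_cancel₀ hθ, one_mul]
  refine ⟨fun a => ?_, h1⟩
  have h' := hx.inl a
  rw [h1] at h'
  linear_combination h'

theorem IsEv.ne_zero {j : ℕ} {θ : κ} {x : Lay (j + 1) → κ} (hx : IsEv (j + 1) θ x)
    (h0 : x ≠ 0) : θ ≠ 0 := by
  rintro rfl
  apply h0
  have h1 : ∀ a, x (top a) = 0 := by
    intro a
    rw [hx.inr a, zero_mul]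
  funext a
  rcases a with _ | a | a
  · exact h1 a
  · have h' := hx.inl a
    have h2 : cs j (fun b => x (top b)) a = 0 := by
      classical
      rw [cs_eq]
      refine Finset.sum_eq_zero fun b _ => ?_
      rw [h1, ite_self]
    rw [h2, h1, ite_self, zero_add, add_zero, zero_mul] at h'
    exact h'

theorem IsEv.rt_ne : (j : ℕ) → ∀ {θ : κ} {x : Lay j → κ}, IsEv j θ x → x ≠ 0 → x (rt j) ≠ 0
  | 0, θ, x, _, h0 => by
    intro h
    apply h0
    funext a
    cases a
    exact h
  | j + 1, θ, x, hx, h0 => by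
    have hθ := hx.ne_zero h0
    obtain ⟨h1, h2⟩ := hx.down hθ
    refine IsEv.rt_ne j h1 fun h3 => h0 ?_
    funext a
    rcases a with _ | a | a
    · exact congrFun h3 a
    · rw [h2, show x (top a) = 0 from congrFun h3 a, mul_zero]
      rfl

/-- The eigenspaces have dimension at most one. -/
theorem IsEv.prop {j : ℕ} {θ : κ} {x y : Lay j → κ} (hx : IsEv j θ x) (hy : IsEv j θ y)
    (a : Lay j) : x (rt j) * y a = y (rt j) * x a := by
  have h1 : IsEv j θ (fun b => x (rt j) * y b - y (rt j) * x b) := by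
    classical
    intro b
    have e1 := hx b
    have e2 := hy b
    have e3 : cs j (fun b => x (rt j) * y b - y (rt j) * x b) b =
        x (rt j) * cs j y b - y (rt j) * cs j x b := by
      rw [cs_eq, cs_eq, cs_eq, Finset.mul_sum, Finset.mul_sum, ← Finset.sum_sub_distrib]
      refine Finset.sum_congr rfl fun c _ => ?_
      by_cases h : cor j b c
      · rw [if_pos h, if_pos h, if_pos h]
      · rw [if_neg h, if_neg h, if_neg h, mul_zero, mul_zero, sub_zero]
    rw [e3]
    by_cases hb : b = rt j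
    · rw [if_pos hb] at e1 e2 ⊢
      linear_combination x (rt j) * e2 - y (rt j) * e1
    · rw [if_neg hb] at e1 e2 ⊢
      linear_combination x (rt j) * e2 - y (rt j) * e1
  by_contra h
  refine h1.rt_ne j (fun h2 => h (sub_eq_zero.1 (congrFun h2 a))) ?_
  ring

/-! ### The tower -/

theorem telescope [CharP κ 2] (t : κ) (m : ℕ) :
    t ^ 2 ^ m + t = ∑ k ∈ Finset.range m, (t ^ 2 + t) ^ 2 ^ k := by
  induction m with
  | zero =>
    rw [pow_zero, pow_one, Finset.sum_range_zero]
    exact CharTwo.add_self_eq_zero t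
  | succ m ih =>
    rw [Finset.sum_range_succ, ← ih, add_pow_char_pow, ← pow_mul]
    have h : t ^ 2 ^ m + t ^ 2 ^ m = 0 := CharTwo.add_self_eq_zero _
    rw [show 2 * 2 ^ m = 2 ^ (m + 1) by ring]
    linear_combination -h

/-- The Frobenius power inverts the next element of the tower. -/
theorem frob_next [CharP κ 2] {j : ℕ} {a b : κ} (ha : a ≠ 0) (hb : b ≠ 0) (hab : a - a⁻¹ = b)
    (hfix : b ^ 2 ^ 2 ^ j = b) (htr : ∑ k ∈ Finset.range (2 ^ j), b⁻¹ ^ 2 ^ k = 1) :
    a ^ 2 ^ 2 ^ j = a⁻¹ := by
  have hneg : ∀ z : κ, -z = z := fun z => CharTwo.neg_eq z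
  have h1 : a ^ 2 + a * b = 1 := by
    rw [← hab]
    have e : a * a⁻¹ = 1 := mul_inv_cancel₀ ha
    have e2 : a ^ 2 + a ^ 2 = 0 := CharTwo.add_self_eq_zero _
    have e3 := hneg 1
    linear_combination e2 - e + e3
  have h2 : (a * b⁻¹) ^ 2 + a * b⁻¹ = b⁻¹ ^ 2 := by
    have e : b * b⁻¹ = 1 := mul_inv_cancel₀ hb
    linear_combination b⁻¹ ^ 2 * h1 - a * b⁻¹ * e
  have h3 := telescope (a * b⁻¹) (2 ^ j)
  rw [h2] at h3
  have h4 : ∑ k ∈ Finset.range (2 ^ j), (b⁻¹ ^ 2) ^ 2 ^ k =
      (∑ k ∈ Finset.range (2 ^ j), b⁻¹ ^ 2 ^ k) ^ 2 := by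
    have h5 : (∑ k ∈ Finset.range (2 ^ j), b⁻¹ ^ 2 ^ k) ^ 2 =
        ∑ k ∈ Finset.range (2 ^ j), (b⁻¹ ^ 2 ^ k) ^ 2 := sum_pow_char 2 _ _
    rw [h5]
    refine Finset.sum_congr rfl fun k _ => ?_
    rw [← pow_mul, ← pow_mul, mul_comm]
  rw [h4, htr, one_pow, mul_pow, inv_pow, hfix] at h3
  have e : b * b⁻¹ = 1 := mul_inv_cancel₀ hb
  have e2 : b⁻¹ * b = 1 := inv_mul_cancel₀ hb
  have h6 : a ^ 2 ^ 2 ^ j + a = b := by
    linear_combination b * h3 - (a ^ 2 ^ 2 ^ j + a) * e
  have e3 := hneg a⁻¹
  linear_combination h6 - hab + e3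

/-- The partial sums of an eigenvector are different from zero. -/
theorem tower [CharP κ 2] : (j : ℕ) → ∀ {θ : κ} {x : Lay j → κ}, IsEv j θ x → x (rt j) ≠ 0 →
    θ ≠ 0 ∧ θ ^ 2 ^ 2 ^ j = θ ∧ (∀ a, (x a / x (rt j)) ^ 2 ^ 2 ^ j = x a / x (rt j)) ∧
      ∑ k ∈ Finset.range (2 ^ j), θ ^ 2 ^ k = 1 ∧ ∑ k ∈ Finset.range (2 ^ j), θ⁻¹ ^ 2 ^ k = 1 ∧
      ∀ J : Finset (Lay j), J.Nonempty → ∑ a ∈ J, x a ≠ 0
  | 0, θ, x, hx, h0 => by
    have hall : ∀ a : Lay 0, a = rt 0 := by
      intro a
      cases a
      rfl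
    have h1 := hx (rt 0)
    rw [if_pos rfl] at h1
    have h2 : 0 + x (rt 0) = θ * x (rt 0) := h1
    rw [zero_add] at h2
    have hθ : θ = 1 := by
      have := mul_right_cancel₀ h0 (show θ * x (rt 0) = 1 * x (rt 0) by rw [← h2, one_mul])
      exact this
    subst hθ
    refine ⟨one_ne_zero, one_pow _, fun a => ?_, by simp, by simp, fun J hJ => ?_⟩
    · rw [hall a, div_self h0, one_pow]
    · obtain ⟨a, ha⟩ := hJ
      have hJ : J = {rt 0} := by
        ext b
        rw [Finset.mem_singleton]
        constructor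
        · intro _
          exact hall b
        · rintro rfl
          rw [← hall a]
          exact ha
      rw [hJ, Finset.sum_singleton]
      exact h0
  | j + 1, θ, x, hx, h0 => by
    have hx0 : x ≠ 0 := by
      rintro rfl
      exact h0 rfl
    have hθ := hx.ne_zero hx0
    obtain ⟨h1, h2⟩ := hx.down hθ
    have h0' : x (top (rt j)) ≠ 0 := h0
    obtain ⟨i1, i2, i3, i4, i5, i6⟩ := tower j h1 h0'
    have hf : θ ^ 2 ^ 2 ^ j = θ⁻¹ := frob_next hθ i1 rfl i2 i5
    have hq : (2 : ℕ) ^ 2 ^ (j + 1) = 2 ^ 2 ^ j * 2 ^ 2 ^ j := by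
      rw [← pow_add]
      congr 1
      ring
    have hneg : ∀ z : κ, -z = z := fun z => CharTwo.neg_eq z
    have hb : ∀ k : ℕ, θ ^ 2 ^ k + θ⁻¹ ^ 2 ^ k = (θ - θ⁻¹) ^ 2 ^ k := by
      intro k
      rw [sub_eq_add_neg, hneg, add_pow_char_pow]
    refine ⟨hθ, ?_, ?_, ?_, ?_, ?_⟩
    · rw [hq, pow_mul, hf, inv_pow, hf, inv_inv]
    · intro a
      rcases a with _ | a | a
      · rw [hq, pow_mul, show rt (j + 1) = (top (rt j) : Lay (j + 1)) from rfl, i3, i3]
      · rw [h2, show rt (j + 1) = (top (rt j) : Lay (j + 1)) from rfl, mul_div_assoc, hq,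
          pow_mul, mul_pow, i3, inv_pow, hf, inv_inv, mul_pow, i3, hf]
    · rw [pow_succ 2 j, mul_two, Finset.sum_range_add, ← Finset.sum_add_distrib, ← i4]
      refine Finset.sum_congr rfl fun k _ => ?_
      rw [pow_add 2 (2 ^ j) k, pow_mul, hf, hb]
    · rw [pow_succ 2 j, mul_two, Finset.sum_range_add, ← Finset.sum_add_distrib, ← i4]
      refine Finset.sum_congr rfl fun k _ => ?_
      rw [pow_add 2 (2 ^ j) k, pow_mul, inv_pow θ (2 ^ 2 ^ j), hf, inv_inv, add_comm, hb]
    · intro J hJ hsum
      let J0 : Finset (Lay j) := Finset.univ.filter fun a => (top a : Lay (j + 1)) ∈ J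
      let J1 : Finset (Lay j) := Finset.univ.filter fun a => (bot a : Lay (j + 1)) ∈ J
      have hsplit : ∑ a ∈ J, x a = ∑ a ∈ J0, x (top a) + ∑ a ∈ J1, x (bot a) := by
        have e1 : ∑ a ∈ J, x a = ∑ a : Lay (j + 1), if a ∈ J then x a else 0 := by
          rw [Finset.sum_ite_mem, Finset.univ_inter]
        have e2 : ∑ a : Lay (j + 1), (if a ∈ J then x a else 0) =
            ∑ a : Lay j, (if (top a : Lay (j + 1)) ∈ J then x (top a) else 0) +
            ∑ a : Lay j, (if (bot a : Lay (j + 1)) ∈ J then x (bot a) else 0) :=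
          sum_split _
        rw [e1, e2, Finset.sum_filter, Finset.sum_filter]
      set r := x (top (rt j)) with hr
      have hfr : ∀ T : Finset (Lay j), (∑ a ∈ T, x (top a) / r) ^ 2 ^ 2 ^ j =
          ∑ a ∈ T, x (top a) / r := by
        intro T
        rw [sum_pow_char_pow]
        exact Finset.sum_congr rfl fun a _ => i3 a
      set A := ∑ a ∈ J0, x (top a) / r with hA
      set B := ∑ a ∈ J1, x (top a) / r with hB
      have hAB : A + θ⁻¹ * B = 0 := by
        have e1 : ∑ a ∈ J1, x (bot a) = θ⁻¹ * ∑ a ∈ J1, x (top a) := by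
          rw [Finset.mul_sum]
          exact Finset.sum_congr rfl fun a _ => h2 a
        rw [hsplit, e1] at hsum
        rw [hA, hB, ← Finset.sum_div, ← Finset.sum_div, ← mul_div_assoc, ← add_div, hsum,
          zero_div]
      have hAB' : A + θ * B = 0 := by
        have e1 : (A + θ⁻¹ * B) ^ 2 ^ 2 ^ j = 0 := by
          rw [hAB]
          exact zero_pow (by positivity)
        rw [add_pow_char_pow, mul_pow, inv_pow, hf, inv_inv, hfr, hfr] at e1
        exact e1
      have hB0 : B = 0 := by
        have e1 : (θ - θ⁻¹) * B = 0 := by linear_combination hAB' - hAB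
        rcases mul_eq_zero.1 e1 with h | h
        · exact absurd h i1
        · exact h
      have hA0 : A = 0 := by
        rw [hB0, mul_zero, add_zero] at hAB
        exact hAB
      have hJ1 : J1 = ∅ := by
        by_contra h
        refine i6 J1 (Finset.nonempty_iff_ne_empty.2 h) ?_
        have : B * r = 0 := by rw [hB0, zero_mul]
        rw [hB, Finset.sum_mul] at this
        rw [← this]
        refine Finset.sum_congr rfl fun a _ => ?_
        rw [div_mul_cancel₀ _ h0']
      have hJ0 : J0 = ∅ := by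
        by_contra h
        refine i6 J0 (Finset.nonempty_iff_ne_empty.2 h) ?_
        have : A * r = 0 := by rw [hA0, zero_mul]
        rw [hA, Finset.sum_mul] at this
        rw [← this]
        refine Finset.sum_congr rfl fun a _ => ?_
        rw [div_mul_cancel₀ _ h0']
      obtain ⟨a, ha⟩ := hJ
      rcases a with _ | a | a
      · have : a ∈ J0 := Finset.mem_filter.2 ⟨Finset.mem_univ _, ha⟩
        rw [hJ0] at this
        exact absurd this (Finset.notMem_empty _)
      · have : a ∈ J1 := Finset.mem_filter.2 ⟨Finset.mem_univ _, ha⟩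
        rw [hJ1] at this
        exact absurd this (Finset.notMem_empty _)

end field

end Lay

end Pool.Agent.H153SS
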