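import Pool.Agent.H153SS.Graph

/-!
# The graph of Cai, Fürer and Immerman can be read off the graph with simple eigenvalues
-/

set_option autoImplicit false
set_option linter.unusedSectionVars false

namespace Pool.Agent.H153SS

open Finset Lay Pool.Agent.Y598.VT

variable {U : Type} {j : ℕ} {P : Ports U} {b b' : U → ZMod 2} {T : Pat U j}

/-- A vertex of a triangle. -/
def Tri {V : Type} (G : SimpleGraph V) (z : V) : Prop :=
  ∃ y y', G.Adj z y ∧ G.Adj z y' ∧ G.Adj y y'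

/-- Adjacent vertices with the same neighbours among the vertices of triangles. -/
def Tw {V : Type} (G : SimpleGraph V) (z z' : V) : Prop :=
  G.Adj z z' ∧ ∀ y, Tri G y → y ≠ z → y ≠ z' → (G.Adj z y ↔ G.Adj z' y)

theorem tri_map {V W : Type} {G : SimpleGraph V} {H : SimpleGraph W} (φ : G ≃g H) {z : V}
    (h : Tri G z) : Tri H (φ z) := by
  obtain ⟨y, y', h1, h2, h3⟩ := h
  exact ⟨φ y, φ y', φ.map_adj_iff.2 h1, φ.map_adj_iff.2 h2, φ.map_adj_iff.2 h3⟩

theorem tw_map {V W : Type} {G : SimpleGraph V} {H : SimpleGraph W} (φ : G ≃g H) {z z' : V}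
    (h : Tw G z z') : Tw H (φ z) (φ z') := by
  obtain ⟨h1, h2⟩ := h
  refine ⟨φ.map_adj_iff.2 h1, fun y hy hyz hyz' => ?_⟩
  obtain ⟨x, rfl⟩ := φ.surjective y
  rw [φ.map_adj_iff, φ.map_adj_iff]
  refine h2 x ?_ (fun h => hyz (by rw [h])) (fun h => hyz' (by rw [h]))
  have h3 := tri_map φ.symm hy
  rwa [RelIso.symm_apply_apply] at h3

theorem z2_ne (c : ZMod 2) : c + 1 ≠ c := by
  revert c
  decide

/-- Adjacency in the first layer. -/
theorem rt_adj {x x' : Cv U} {c c' : ZMod 2} :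
    (big P b T).Adj (x, (c, rt j)) (x', (c', rt j)) ↔
      (x = x' ∧ c' = c + 1) ∨ (cfi P b).Adj x x' := by
  rw [big_adj]
  constructor
  · rintro (⟨h1, h2, h3⟩ | ⟨h1, h2, h3, h4⟩ | ⟨h1, h2, h3⟩)
    · exact absurd h3 (cor_irrefl j _)
    · left
      simp only at h1 h3 h4
      rw [T.root, Finset.mem_singleton, sub_eq_zero] at h4
      exact ⟨Prod.ext h1 h4.symm, h3⟩
    · exact Or.inr h3
  · rintro (⟨rfl, h2⟩ | h)
    · refine Or.inr (Or.inl ⟨rfl, rfl, h2, ?_⟩)
      simp only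
      rw [T.root, sub_self]
      exact Finset.mem_singleton_self _
    · exact Or.inr (Or.inr ⟨rfl, rfl, h⟩)

theorem exists_nbr (P : Ports U) (b : U → ZMod 2) (x : Cv U) : ∃ x', (cfi P b).Adj x x' := by
  obtain ⟨y, _, _, h1, _, h3, _⟩ := exists_val b (P.nb x.1 0) (P.rv 0) (val b x 0)
  exact ⟨y, 0, h1.symm, h3.symm⟩

/-- The triangles lie in the first layer. -/
theorem tri_iff {z : Bv U j} : Tri (big P b T) z ↔ z.2.2 = rt j := by
  constructor
  · rintro ⟨y, y', h1, h2, h3⟩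
    by_contra hz
    rw [big_adj] at h1 h2 h3
    rcases h1 with ⟨a1, a2, a3⟩ | ⟨a1, a2, a3, a4⟩ | ⟨a1, _, _⟩
    · rcases h2 with ⟨b1, b2, b3⟩ | ⟨b1, b2, b3, b4⟩ | ⟨b1, _, _⟩
      · rcases h3 with ⟨_, _, c3⟩ | ⟨_, _, c3, _⟩ | ⟨_, _, c3⟩
        · have e1 := cor_par j _ _ a3
          have e2 := cor_par j _ _ b3
          have e3 := cor_par j _ _ c3
          rw [e1] at e2
          rw [e3] at e2
          cases h : par j y'.2.2 <;> rw [h] at e2 <;> simp at e2
        · rw [← a2, ← b2] at c3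
          exact z2_ne _ c3.symm
        · rw [← a1, ← b1] at c3
          exact (cfi P b).loopless.irrefl _ c3
      · rcases h3 with ⟨_, c2, _⟩ | ⟨_, c2, _, _⟩ | ⟨_, c2, _⟩
        · rw [b3, ← a2] at c2
          exact z2_ne _ c2.symm
        · exact cor_ne a3 (b2.trans c2.symm)
        · exact hz (b2.trans c2)
      · exact hz b1
    · rcases h2 with ⟨b1, b2, b3⟩ | ⟨b1, b2, b3, b4⟩ | ⟨b1, _, _⟩
      · rcases h3 with ⟨_, c2, _⟩ | ⟨_, c2, _, _⟩ | ⟨c1, _, _⟩
        · rw [a3, ← b2] at c2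
          exact z2_ne _ c2
        · exact cor_ne b3 (a2.trans c2)
        · exact hz (a2.trans c1)
      · rcases h3 with ⟨_, _, c3⟩ | ⟨_, _, c3, _⟩ | ⟨c1, _, _⟩
        · rw [← a2, ← b2] at c3
          exact cor_irrefl j _ c3
        · rw [a3, b3] at c3
          exact z2_ne _ c3.symm
        · exact hz (a2.trans c1)
      · exact hz b1
    · exact hz a1
  · intro h
    obtain ⟨x, c, i⟩ := z
    simp only at h
    subst h
    obtain ⟨x', hx'⟩ := exists_nbr P b x
    refine ⟨(x, (c + 1, rt j)), (x', (c, rt j)), rt_adj.2 (Or.inl ⟨rfl, rfl⟩),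
      rt_adj.2 (Or.inr hx'), rt_adj.2 (Or.inr hx')⟩

/-- The twins. -/
theorem tw_iff {x x' : Cv U} {c c' : ZMod 2} :
    Tw (big P b T) (x, (c, rt j)) (x', (c', rt j)) ↔ x = x' ∧ c' = c + 1 := by
  constructor
  · rintro ⟨h1, h2⟩
    rcases rt_adj.1 h1 with h | h
    · exact h
    · exfalso
      obtain ⟨p, hp1, hp2⟩ := h
      obtain ⟨y, y', hne, e1, e2, e3, e4⟩ := exists_val b (P.nb x.1 p) (P.rv p) (val b x p)
      obtain ⟨w, hw, hw1, hw2⟩ : ∃ w : Cv U, w ≠ x' ∧ w.1 = x'.1 ∧ (cfi P b).Adj x w := by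
        by_cases hy : y = x'
        · refine ⟨y', fun h => hne (hy.trans h.symm), e2.trans hp1, p, e2.symm, e4.symm⟩
        · exact ⟨y, hy, e1.trans hp1, p, e1.symm, e3.symm⟩
      have h3 := h2 (w, (c, rt j)) (tri_iff.2 rfl)
        (fun h => by
          have h4 : w = x := congrArg Prod.fst h
          rw [h4] at hw2
          exact (cfi P b).loopless.irrefl _ hw2)
        (fun h => hw (congrArg Prod.fst h))
      rcases rt_adj.1 (h3.1 (rt_adj.2 (Or.inr hw2))) with h | h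
      · exact hw h.1.symm
      · obtain ⟨q, hq, _⟩ := h
        rw [hw1] at hq
        exact P.nb_ne _ _ hq
  · rintro ⟨rfl, rfl⟩
    refine ⟨rt_adj.2 (Or.inl ⟨rfl, rfl⟩), ?_⟩
    rintro ⟨y, d, i⟩ hy h1 h2
    have hi : i = rt j := tri_iff.1 hy
    subst hi
    have hyx : y ≠ x := by
      rintro rfl
      have key : ∀ d c : ZMod 2, d ≠ c → d = c + 1 := by decide
      exact h2 (by rw [key d c fun h => h1 (by rw [h])])
    rw [rt_adj, rt_adj]
    constructor
    · rintro (⟨h, _⟩ | h)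
      · exact absurd h.symm hyx
      · exact Or.inr h
    · rintro (⟨h, _⟩ | h)
      · exact absurd h.symm hyx
      · exact Or.inr h

/-- Isomorphic graphs come from isomorphic graphs. -/
theorem cfi_iso [Fintype U] (φ : big P b T ≃g big P b' T) :
    Nonempty (cfi P b ≃g cfi P b') := by
  have hrt : ∀ x c, (φ (x, (c, rt j))).2.2 = rt j := fun x c =>
    tri_iff.1 (tri_map φ (tri_iff.2 rfl))
  have hform : ∀ x c, ∃ d, φ (x, (c, rt j)) = ((φ (x, (0, rt j))).1, (d, rt j)) := by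
    intro x c
    have h1 := hrt x c
    have h0 := hrt x 0
    obtain ⟨⟨y, e, i⟩, hy⟩ : ∃ q, q = φ (x, (c, rt j)) := ⟨_, rfl⟩
    obtain ⟨⟨y0, e0, i0⟩, hy0⟩ : ∃ q, q = φ (x, (0, rt j)) := ⟨_, rfl⟩
    rw [← hy] at h1 ⊢
    rw [← hy0] at h0 ⊢
    simp only at h1 h0
    subst h1 h0
    refine ⟨e, ?_⟩
    have hc : c = 0 ∨ c = 0 + 1 := by
      have key : ∀ c : ZMod 2, c = 0 ∨ c = 0 + 1 := by decide
      exact key c
    rcases hc with rfl | rfl
    · have h2 : (y, (e, rt j)) = (y0, (e0, rt j)) := hy.trans hy0.symm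
      have h3 : y = y0 := congrArg Prod.fst h2
      rw [h3]
    · have h2 : Tw (big P b T) (x, ((0 : ZMod 2), rt j)) (x, (0 + 1, rt j)) := tw_iff.2 ⟨rfl, rfl⟩
      have h3 := tw_map φ h2
      rw [← hy, ← hy0] at h3
      rw [(tw_iff.1 h3).1]
  let ψ : Cv U → Cv U := fun x => (φ (x, (0, rt j))).1
  have hψ : Function.Injective ψ := by
    intro x x' h
    obtain ⟨d, hd⟩ := hform x 0
    obtain ⟨d', hd'⟩ := hform x' 0
    have h' : (φ (x, (0, rt j))).1 = (φ (x', (0, rt j))).1 := h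
    by_cases hdd : d' = d
    · have h1 : φ (x, (0, rt j)) = φ (x', (0, rt j)) := by
        rw [hd, hd', h', hdd]
      exact congrArg Prod.fst (φ.injective h1)
    · have key : ∀ d c : ZMod 2, d ≠ c → d = c + 1 := by decide
      have h2 : Tw (big P b' T) (φ (x, (0, rt j))) (φ (x', (0, rt j))) := by
        rw [hd, hd']
        exact tw_iff.2 ⟨h', key _ _ hdd⟩
      have h3 := tw_map φ.symm h2
      rw [RelIso.symm_apply_apply, RelIso.symm_apply_apply] at h3
      exact (tw_iff.1 h3).1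
  have hadj : ∀ x x', (cfi P b').Adj (ψ x) (ψ x') ↔ (cfi P b).Adj x x' := by
    intro x x'
    by_cases hxx : x = x'
    · subst hxx
      exact ⟨fun h => absurd h ((cfi P b').loopless.irrefl _),
        fun h => absurd h ((cfi P b).loopless.irrefl _)⟩
    · have hne : ψ x ≠ ψ x' := fun h => hxx (hψ h)
      obtain ⟨d, hd⟩ := hform x 0
      obtain ⟨d', hd'⟩ := hform x' 0
      have h1 : (big P b T).Adj (x, ((0 : ZMod 2), rt j)) (x', (0, rt j)) ↔
          (cfi P b).Adj x x' := by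
        rw [rt_adj]
        exact or_iff_right fun h => hxx h.1
      rw [← h1, ← φ.map_adj_iff, hd, hd', rt_adj]
      exact (or_iff_right fun h => hne h.1).symm
  exact ⟨⟨Equiv.ofBijective ψ (Finite.injective_iff_bijective.1 hψ), fun {x x'} => hadj x x'⟩⟩

end Pool.Agent.H153SS
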