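import Pool.Agent.H153SS.Layers

/-!
# Simplicity of the eigenvalues of a system of coronas

A finite family of coronas with integral loops, coupled by an integral multiple of four at the
first layer, has simple eigenvalues as soon as the loops of any two members of the family differ
modulo four somewhere. The proof reduces the eigenvectors modulo a place of the real numbers over
the prime two.
-/

set_option autoImplicit false
set_option linter.unusedSectionVars false

namespace Pool.Agent.H153SS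

open Finset Lay IsLocalRing

/-- A valuation ring of the real numbers in which `2` is not invertible. -/
theorem exists_place : ∃ V : ValuationSubring ℝ, (2 : V) ∈ maximalIdeal V := by
  let Z : Subring ℝ := (algebraMap ℤ ℝ).range
  let two : Z := ⟨2, ⟨2, by simp⟩⟩
  have h2 : ¬ IsUnit two := by
    intro h
    obtain ⟨c, hc⟩ := h.exists_right_inv
    obtain ⟨n, hn⟩ := c.2
    have h3 : (2 : ℝ) * c.1 = 1 := congrArg Subtype.val hc
    rw [← hn] at h3
    have h4 : ((2 * n : ℤ) : ℝ) = ((1 : ℤ) : ℝ) := by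
      push_cast
      simpa using h3
    have h5 : 2 * n = 1 := by exact_mod_cast h4
    omega
  obtain ⟨B, hB1, hB2⟩ := Ideal.image_subset_nonunits_valuationSubring (Ideal.span {two})
    (fun h => h2 (Ideal.span_singleton_eq_top.1 h))
  refine ⟨B, ?_⟩
  have h3 : (2 : ℝ) ∈ B.nonunits :=
    hB2 ⟨two, Ideal.subset_span (Set.mem_singleton _), rfl⟩
  rw [ValuationSubring.mem_nonunits_iff] at h3
  rw [ValuationSubring.valuation_lt_one_iff]
  exact h3

section

variable {Ω : Type} [Fintype Ω]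

/-- The eigenvalue equation of the system. -/
def Sys {R : Type} [CommRing R] (j : ℕ) (kk : Ω → Lay j → ℤ) (gg : Ω → Ω → ℤ) (θ : R)
    (x : Ω → Lay j → R) : Prop :=
  ∀ ω i, cs j (x ω) i + (kk ω i : R) * x ω i +
    (if i = rt j then 4 * ∑ ω', (gg ω ω' : R) * x ω' (rt j) else 0) = θ * x ω i

variable {j : ℕ} {kk : Ω → Lay j → ℤ} {gg : Ω → Ω → ℤ}

theorem cs_lin {R : Type} [CommRing R] (j : ℕ) (c d : R) (x y : Lay j → R) (a : Lay j) :
    cs j (fun b => c * x b + d * y b) a = c * cs j x a + d * cs j y a := by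
  classical
  rw [cs_eq, cs_eq, cs_eq, Finset.mul_sum, Finset.mul_sum, ← Finset.sum_add_distrib]
  refine Finset.sum_congr rfl fun e _ => ?_
  by_cases h : cor j a e
  · rw [if_pos h, if_pos h, if_pos h]
  · rw [if_neg h, if_neg h, if_neg h, mul_zero, mul_zero, add_zero]

/-- Linear combinations of solutions. -/
theorem Sys.lin {R : Type} [CommRing R] {θ : R} {x y : Ω → Lay j → R} (hx : Sys j kk gg θ x)
    (hy : Sys j kk gg θ y) (c d : R) : Sys j kk gg θ (fun ω i => c * x ω i + d * y ω i) := by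
  intro ω i
  have e1 := hx ω i
  have e2 := hy ω i
  beta_reduce
  rw [cs_lin]
  by_cases hi : i = rt j
  · rw [if_pos hi] at e1 e2 ⊢
    have e3 : ∑ ω', (gg ω ω' : R) * (c * x ω' (rt j) + d * y ω' (rt j)) =
        c * ∑ ω', (gg ω ω' : R) * x ω' (rt j) + d * ∑ ω', (gg ω ω' : R) * y ω' (rt j) := by
      rw [Finset.mul_sum, Finset.mul_sum, ← Finset.sum_add_distrib]
      refine Finset.sum_congr rfl fun ω' _ => ?_
      ring
    rw [e3]
    linear_combination c * e1 + d * e2
  · rw [if_neg hi] at e1 e2 ⊢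
    linear_combination c * e1 + d * e2

/-- Images under a homomorphism of rings. -/
theorem Sys.map {R S : Type} [CommRing R] [CommRing S] (f : R →+* S) {θ : R}
    {x : Ω → Lay j → R} (hx : Sys j kk gg θ x) : Sys j kk gg (f θ) (fun ω i => f (x ω i)) := by
  intro ω i
  have e := congrArg f (hx ω i)
  rw [cs_map]
  rw [map_mul, map_add, map_add, map_mul, map_intCast] at e
  rw [← e]
  congr 1
  by_cases hi : i = rt j
  · rw [if_pos hi, if_pos hi, map_mul, map_sum, map_ofNat]
    congr 1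
    refine Finset.sum_congr rfl fun ω' _ => ?_
    rw [map_mul, map_intCast]
  · rw [if_neg hi, if_neg hi, map_zero]

/-- Reflection of solutions under an injective homomorphism of rings. -/
theorem Sys.of_map {R S : Type} [CommRing R] [CommRing S] (f : R →+* S)
    (hf : Function.Injective f) {θ : R}
    {x : Ω → Lay j → R} (hx : Sys j kk gg (f θ) (fun ω i => f (x ω i))) : Sys j kk gg θ x := by
  intro ω i
  apply hf
  have e := hx ω i
  rw [cs_map] at e
  rw [map_mul, map_add, map_add, map_mul, map_intCast, ← e]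
  congr 1
  by_cases hi : i = rt j
  · rw [if_pos hi, if_pos hi, map_mul, map_sum, map_ofNat]
    congr 1
    refine Finset.sum_congr rfl fun ω' _ => ?_
    rw [map_mul, map_intCast]
  · rw [if_neg hi, if_neg hi, map_zero]

/-- The relation between two members of the family. -/
theorem Sys.cross {R : Type} [CommRing R] {θ : R} {x y : Ω → Lay j → R} (hx : Sys j kk gg θ x)
    (hy : Sys j kk gg θ y) (ω ω' : Ω) :
    ∑ i, ((kk ω i - kk ω' i : ℤ) : R) * x ω i * y ω' i +
      4 * ((∑ ν, (gg ω ν : R) * x ν (rt j)) * y ω' (rt j) -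
        (∑ ν, (gg ω' ν : R) * y ν (rt j)) * x ω (rt j)) = 0 := by
  have h1 : ∑ i, (cs j (x ω) i + (kk ω i : R) * x ω i +
      (if i = rt j then 4 * ∑ ν, (gg ω ν : R) * x ν (rt j) else 0)) * y ω' i =
      ∑ i, x ω i * (cs j (y ω') i + (kk ω' i : R) * y ω' i +
      (if i = rt j then 4 * ∑ ν, (gg ω' ν : R) * y ν (rt j) else 0)) := by
    refine Finset.sum_congr rfl fun i _ => ?_
    rw [hx ω i, hy ω' i]
    ring
  have h2 := cs_symm j (x ω) (y ω')
  simp only [add_mul, mul_add, Finset.sum_add_distrib, ite_mul, mul_ite, zero_mul, mul_zero,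
    Finset.sum_ite_eq', Finset.mem_univ, if_true] at h1
  have h3 : ∑ i, ((kk ω i - kk ω' i : ℤ) : R) * x ω i * y ω' i =
      ∑ i, (kk ω i : R) * x ω i * y ω' i - ∑ i, x ω i * ((kk ω' i : R) * y ω' i) := by
    rw [← Finset.sum_sub_distrib]
    refine Finset.sum_congr rfl fun i _ => ?_
    push_cast
    ring
  rw [h3]
  linear_combination h1 - h2

/-- The loops are as required. -/
structure Loops (j : ℕ) (kk : Ω → Lay j → ℤ) : Prop where
  odd : ∀ ω, kk ω (rt j) % 2 = 1
  even : ∀ ω i, i ≠ rt j → kk ω i % 2 = 0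
  sep : ∀ ω ω', ω ≠ ω' → ∃ i, (kk ω i - kk ω' i) % 4 ≠ 0

/-- The reduction of a solution consists of eigenvectors of the corona. -/
theorem Sys.isEv {κ : Type} [Field κ] [CharP κ 2] (hk : Loops j kk) {θ : κ} {x : Ω → Lay j → κ}
    (hx : Sys j kk gg θ x) (ω : Ω) : IsEv j θ (x ω) := by
  intro i
  have e := hx ω i
  have h2 : (2 : κ) = 0 := CharTwo.two_eq_zero
  have h4 : (4 : κ) = 0 := by
    have : (4 : κ) = 2 * 2 := by norm_num
    rw [this, h2, zero_mul]
  by_cases hi : i = rt j
  · rw [if_pos hi] at e ⊢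
    have h1 : ((kk ω i : ℤ) : κ) = 1 := by
      have h5 := hk.odd ω
      rw [hi]
      obtain ⟨m, hm⟩ : ∃ m, kk ω (rt j) = 2 * m + 1 := ⟨kk ω (rt j) / 2, by omega⟩
      rw [hm]
      push_cast
      rw [h2]
      ring
    rw [h1, h4, zero_mul, add_zero, one_mul] at e
    exact e
  · rw [if_neg hi] at e ⊢
    have h1 : ((kk ω i : ℤ) : κ) = 0 := by
      have h5 := hk.even ω i hi
      obtain ⟨m, hm⟩ : ∃ m, kk ω i = 2 * m := ⟨kk ω i / 2, by omega⟩
      rw [hm]
      push_cast
      rw [h2]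
      ring
    rw [h1, zero_mul, add_zero] at e
    exact e

variable {V : ValuationSubring ℝ}

theorem two_residue (h2 : (2 : V) ∈ maximalIdeal V) : CharP (ResidueField V) 2 := by
  have h : (2 : ResidueField V) = 0 := by
    have h3 := (residue_eq_zero_iff (R := V) 2).2 h2
    rw [map_ofNat] at h3
    exact h3
  exact CharTwo.of_one_ne_zero_of_two_eq_zero one_ne_zero h

/-- Two solutions over the valuation ring have reductions with disjoint supports, unless both
are supported on the same member of the family. -/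
theorem Sys.disjoint (h2 : (2 : V) ∈ maximalIdeal V) (hk : Loops j kk) {θ : V}
    {x y : Ω → Lay j → V} (hx : Sys j kk gg θ x) (hy : Sys j kk gg θ y) {ω ω' : Ω}
    (hω : ω ≠ ω') : residue V (x ω (rt j)) = 0 ∨ residue V (y ω' (rt j)) = 0 := by
  have := two_residue h2
  have h20 : (2 : V) ≠ 0 := two_ne_zero
  obtain ⟨d, hd⟩ : ∃ d : Lay j → ℤ, ∀ i, kk ω i - kk ω' i = 2 * d i := by
    refine ⟨fun i => (kk ω i - kk ω' i) / 2, fun i => ?_⟩
    by_cases hi : i = rt j
    · subst hi
      have a1 := hk.odd ω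
      have a2 := hk.odd ω'
      simp only
      omega
    · have a1 := hk.even ω i hi
      have a2 := hk.even ω' i hi
      simp only
      omega
  have h1 := hx.cross hy ω ω'
  have h3 : ∑ i, (d i : V) * x ω i * y ω' i +
      2 * ((∑ ν, (gg ω ν : V) * x ν (rt j)) * y ω' (rt j) -
        (∑ ν, (gg ω' ν : V) * y ν (rt j)) * x ω (rt j)) = 0 := by
    refine (mul_eq_zero.1 ?_).resolve_left h20
    rw [mul_add, Finset.mul_sum, ← h1]
    congr 1
    · refine Finset.sum_congr rfl fun i _ => ?_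
      rw [hd]
      push_cast
      ring
    · ring
  have h4 := congrArg (residue V) h3
  have e2 : residue V 2 = 0 := (residue_eq_zero_iff (R := V) 2).2 h2
  rw [map_add, map_mul (residue V) 2, e2, zero_mul, add_zero, map_sum, map_zero] at h4
  let J : Finset (Lay j) := Finset.univ.filter fun i => d i % 2 = 1
  have hJ : J.Nonempty := by
    obtain ⟨i, hi⟩ := hk.sep ω ω' hω
    refine ⟨i, Finset.mem_filter.2 ⟨Finset.mem_univ _, ?_⟩⟩
    have := hd i
    omega
  have h5 : ∑ i ∈ J, residue V (x ω i) * residue V (y ω' i) = 0 := by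
    rw [← h4, Finset.sum_filter]
    refine Finset.sum_congr rfl fun i _ => ?_
    rw [map_mul, map_mul, map_intCast]
    have h22 : (2 : ResidueField V) = 0 := CharTwo.two_eq_zero
    split_ifs with h
    · obtain ⟨m, hm⟩ : ∃ m, d i = 2 * m + 1 := ⟨d i / 2, by omega⟩
      rw [hm]
      push_cast
      rw [h22]
      ring
    · obtain ⟨m, hm⟩ : ∃ m, d i = 2 * m := ⟨d i / 2, by omega⟩
      rw [hm]
      push_cast
      rw [h22]
      ring
  have hx' := (hx.map (residue V)).isEv hk ω
  have hy' := (hy.map (residue V)).isEv hk ω'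
  by_contra hcon
  rw [not_or] at hcon
  obtain ⟨c1, c2⟩ := hcon
  have h6 : residue V (y ω' (rt j)) * (∑ i ∈ J, residue V (x ω i)) ^ 2 = 0 := by
    have h7 : (∑ i ∈ J, residue V (x ω i)) ^ 2 = ∑ i ∈ J, residue V (x ω i) ^ 2 :=
      sum_pow_char 2 _ _
    rw [h7, Finset.mul_sum]
    have h8 : ∑ i ∈ J, residue V (y ω' (rt j)) * residue V (x ω i) ^ 2 =
        residue V (x ω (rt j)) * ∑ i ∈ J, residue V (x ω i) * residue V (y ω' i) := by
      rw [Finset.mul_sum]
      refine Finset.sum_congr rfl fun i _ => ?_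
      have h9 := hx'.prop hy' i
      linear_combination -residue V (x ω i) * h9
    rw [h8, h5, mul_zero]
  rcases mul_eq_zero.1 h6 with h | h
  · exact c2 h
  · exact (tower j hx' c1).2.2.2.2.2 J hJ (pow_eq_zero_iff two_ne_zero |>.1 h)

/-- Scaling to the valuation ring. -/
theorem exists_scale (V : ValuationSubring ℝ) {x : Ω → Lay j → ℝ} (h0 : x ≠ 0) :
    ∃ (c : ℝ) (z : Ω → Lay j → V), c ≠ 0 ∧ (∀ ω i, (z ω i : ℝ) = c * x ω i) ∧
      ∃ ω i, z ω i = 1 := by
  classical
  obtain ⟨ω0, i0, h1⟩ : ∃ ω i, x ω i ≠ 0 := by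
    by_contra hcon
    push Not at hcon
    exact h0 (funext fun ω => funext fun i => hcon ω i)
  have : Nonempty (Ω × Lay j) := ⟨(ω0, i0)⟩
  obtain ⟨⟨ω, i⟩, hmax⟩ := Finite.exists_max fun q : Ω × Lay j => V.valuation (x q.1 q.2)
  have h2 : x ω i ≠ 0 := by
    intro h
    have h3 := hmax (ω0, i0)
    simp only [h, map_zero] at h3
    exact h1 ((map_eq_zero _).1 (le_zero_iff.1 h3))
  refine ⟨(x ω i)⁻¹, fun ν l => ⟨(x ω i)⁻¹ * x ν l, ?_⟩, inv_ne_zero h2, fun ν l => rfl, ω, i, ?_⟩
  · rw [← V.valuation_le_one_iff, map_mul, map_inv₀]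
    have h3 := hmax (ν, l)
    have h4 : V.valuation (x ω i) ≠ 0 := (map_ne_zero _).2 h2
    rw [inv_mul_le_iff₀ (zero_lt_iff.2 h4), mul_one]
    exact h3
  · exact Subtype.ext (inv_mul_cancel₀ h2)

/-- The eigenvalue of a solution with a unit among its entries lies in the valuation ring. -/
theorem Sys.lift {θ : ℝ} {z : Ω → Lay j → V} (hz : Sys j kk gg θ (fun ω i => (z ω i : ℝ)))
    (h1 : ∃ ω i, z ω i = 1) : ∃ θ' : V, (θ' : ℝ) = θ ∧ Sys j kk gg θ' z := by
  obtain ⟨ω, i, h⟩ := h1
  have e := hz ω i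
  beta_reduce at e
  have e1 : cs j (fun i => (z ω i : ℝ)) i = ((cs j (z ω) i : V) : ℝ) :=
    cs_map V.subtype j (z ω) i
  rw [e1, h] at e
  have e2 : (∑ ω', (gg ω ω' : ℝ) * (z ω' (rt j) : ℝ)) =
      ((∑ ω', (gg ω ω' : V) * z ω' (rt j) : V) : ℝ) := by
    push_cast
    rfl
  refine ⟨cs j (z ω) i + (kk ω i : V) +
    (if i = rt j then 4 * ∑ ω', (gg ω ω' : V) * z ω' (rt j) else 0), ?_, ?_⟩
  · rw [e2] at e
    have e3 : ((1 : V) : ℝ) = 1 := rfl
    rw [e3, mul_one, mul_one] at e
    rw [← e]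
    by_cases hi : i = rt j
    · rw [if_pos hi, if_pos hi]
      push_cast
      rfl
    · rw [if_neg hi, if_neg hi]
      push_cast
      rfl
  · refine Sys.of_map V.subtype Subtype.val_injective ?_
    have e4 : V.subtype (cs j (z ω) i + (kk ω i : V) +
        (if i = rt j then 4 * ∑ ω', (gg ω ω' : V) * z ω' (rt j) else 0)) = θ := by
      rw [e2] at e
      have e3 : ((1 : V) : ℝ) = 1 := rfl
      rw [e3, mul_one, mul_one] at e
      rw [← e]
      by_cases hi : i = rt j
      · rw [if_pos hi, if_pos hi]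
        rfl
      · rw [if_neg hi, if_neg hi]
        rfl
    rw [e4]
    exact hz

/-- Every nonzero solution over the valuation ring with a unit entry has a unit entry in the
first layer. -/
theorem Sys.exists_rt (h2 : (2 : V) ∈ maximalIdeal V) (hk : Loops j kk) {θ : V}
    {z : Ω → Lay j → V} (hz : Sys j kk gg θ z) (h1 : ∃ ω i, z ω i = 1) :
    ∃ ω, residue V (z ω (rt j)) ≠ 0 := by
  have := two_residue h2
  obtain ⟨ω, i, h⟩ := h1
  refine ⟨ω, ((hz.map (residue V)).isEv hk ω).rt_ne j fun h3 => ?_⟩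
  have h4 := congrFun h3 i
  simp only [h, map_one, Pi.zero_apply] at h4
  exact one_ne_zero h4

/-- The eigenvalues of the system are simple. -/
theorem Sys.simple (hk : Loops j kk) {θ : ℝ} {x y : Ω → Lay j → ℝ} (hx : Sys j kk gg θ x)
    (hy : Sys j kk gg θ y) (h0 : x ≠ 0) : ∃ c : ℝ, y = c • x := by
  obtain ⟨V, h2⟩ := exists_place
  obtain ⟨c, z, hc, hz, hz1⟩ := exists_scale V h0
  have hzs : Sys j kk gg θ (fun ω i => (z ω i : ℝ)) := by
    have h := hx.lin hx c 0
    have e : (fun ω i => (z ω i : ℝ)) = fun ω i => c * x ω i + 0 * x ω i := by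
      funext ω i
      rw [hz, zero_mul, add_zero]
    rw [e]
    exact h
  obtain ⟨θ', hθ, hz'⟩ := hzs.lift hz1
  obtain ⟨ω0, hω0⟩ := hz'.exists_rt h2 hk hz1
  have hx0 : x ω0 (rt j) ≠ 0 := by
    intro h
    have h3 := hz ω0 (rt j)
    rw [h, mul_zero] at h3
    have h4 : z ω0 (rt j) = 0 := Subtype.ext h3
    rw [h4, map_zero] at hω0
    exact hω0 rfl
  let e := y ω0 (rt j) / x ω0 (rt j)
  refine ⟨e, ?_⟩
  by_contra hcon
  let y' : Ω → Lay j → ℝ := fun ω i => 1 * y ω i + (-e) * x ω i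
  have hy' : Sys j kk gg θ y' := hy.lin hx 1 (-e)
  have hy0 : y' ≠ 0 := by
    intro h
    apply hcon
    funext ω i
    have h3 : 1 * y ω i + (-e) * x ω i = 0 := congrFun (congrFun h ω) i
    show y ω i = e * x ω i
    linarith
  have hyr : y' ω0 (rt j) = 0 := by
    show 1 * y ω0 (rt j) + (-(y ω0 (rt j) / x ω0 (rt j))) * x ω0 (rt j) = 0
    field_simp
    ring
  obtain ⟨d, w, hd, hw, hw1⟩ := exists_scale V hy0
  have hws : Sys j kk gg (θ' : ℝ) (fun ω i => (w ω i : ℝ)) := by
    rw [hθ]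
    have h := hy'.lin hy' d 0
    have e : (fun ω i => (w ω i : ℝ)) = fun ω i => d * y' ω i + 0 * y' ω i := by
      funext ω i
      rw [hw, zero_mul, add_zero]
    rw [e]
    exact h
  have hw' : Sys j kk gg θ' w := Sys.of_map V.subtype Subtype.val_injective hws
  obtain ⟨ω1, hω1⟩ := hw'.exists_rt h2 hk hw1
  have hne : ω0 ≠ ω1 := by
    rintro rfl
    have h3 := hw ω0 (rt j)
    rw [hyr, mul_zero] at h3
    have h4 : w ω0 (rt j) = 0 := Subtype.ext h3
    rw [h4, map_zero] at hω1
    exact hω1 rfl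
  rcases Sys.disjoint h2 hk hz' hw' hne with h | h
  · exact hω0 h
  · exact hω1 h

end

end Pool.Agent.H153SS
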